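import Pool.Agent.W764.HL.Win

/-!
Few multiples `n z`, `n` in a window `1 / τ ≤ n < H / τ`, lie in a small arc when `‖z‖` is
comparable to `τ`.
-/

set_option autoImplicit false

open Filter Topology Set

namespace Pool.Agent.W764.HL

open Pool.Agent.W764.SH
open Pool.Agent.W764.FB (T)

/-- position of a multiple which lies in a small arc -/
lemma arc_pos {c : ℝ} (hc0 : 0 ≤ c) (hc1 : c < 1) {r : ℝ} (hr : 0 < r) (hr8 : r ≤ 1 / 8) {d : ℝ}
    (hd : 0 < d) {n W : ℕ} (h1 : 1 ≤ n * d) (hW : n * d + 2 ≤ W)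
    (hn : ‖n • ((d : ℝ) : T) - ((c : ℝ) : T)‖ ≤ r) :
    ∃ m ∈ Finset.range W, 3 / 4 ≤ (m : ℝ) + c - r ∧
      Real.log ((m : ℝ) + c - r) - Real.log d ≤ Real.log n ∧
      Real.log n < Real.log ((m : ℝ) + c - r) - Real.log d + 5 * r / (m + 1) := by
  have hn0 : (0 : ℝ) < n := by
    by_contra hcon
    push Not at hcon
    nlinarith
  rw [← AddCircle.coe_nsmul, ← AddCircle.coe_sub, UnitAddCircle.norm_eq, nsmul_eq_mul] at hn
  set j : ℤ := round ((n : ℝ) * d - c) with hj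
  rw [abs_le] at hn
  have hj0 : (0 : ℤ) ≤ j := by
    have h2 : (-1 : ℝ) < j := by linarith [hn.2]
    have h3 : (-1 : ℤ) < j := by exact_mod_cast h2
    omega
  have hjn : (((j.toNat : ℕ) : ℤ)) = j := Int.toNat_of_nonneg hj0
  have hjn' : ((j.toNat : ℕ) : ℝ) = j := by exact_mod_cast hjn
  have hj0' : (0 : ℝ) ≤ j := by exact_mod_cast hj0
  have h34 : 3 / 4 ≤ (j : ℝ) + c - r := by linarith [hn.2]
  refine ⟨j.toNat, ?_, ?_, ?_, ?_⟩
  · rw [Finset.mem_range]
    have h2 : (j : ℝ) < W := by linarith [hn.1]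
    have h3 : ((j.toNat : ℕ) : ℝ) < W := by rw [hjn']; exact h2
    exact_mod_cast h3
  · rw [hjn']; exact h34
  · rw [hjn']
    have h2 : (j : ℝ) + c - r ≤ n * d := by linarith [hn.1]
    have h3 : Real.log ((j : ℝ) + c - r) ≤ Real.log (n * d) :=
      Real.log_le_log (by linarith) h2
    rw [Real.log_mul hn0.ne' hd.ne'] at h3
    linarith
  · rw [hjn']
    have h0 : 0 < (j : ℝ) + c - r := by linarith
    set s : ℝ := (j : ℝ) + c - r with hs
    have h2 : (n : ℝ) * d ≤ s * (1 + 2 * r / s) := by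
      have e : s * (1 + 2 * r / s) = s + 2 * r := by field_simp
      rw [e]
      linarith [hn.2]
    have h3 : Real.log (n * d) ≤ Real.log (s * (1 + 2 * r / s)) :=
      Real.log_le_log (by positivity) h2
    rw [Real.log_mul hn0.ne' hd.ne', Real.log_mul h0.ne' (by positivity)] at h3
    have h4 : Real.log (1 + 2 * r / s) ≤ 2 * r / s := by
      have := Real.log_le_sub_one_of_pos (show 0 < 1 + 2 * r / s by positivity)
      linarith
    have h5 : 2 * r / s < 5 * r / (j + 1) := by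
      rw [div_lt_div_iff₀ h0 (by positivity)]
      have h6 : 2 * ((j : ℝ) + 1) < 5 * s := by
        rcases eq_or_lt_of_le hj0 with h7 | h7
        · have h8 : (j : ℝ) = 0 := by exact_mod_cast h7.symm
          rw [h8]; linarith
        · have h8 : (1 : ℝ) ≤ j := by exact_mod_cast h7
          linarith
      nlinarith
    linarith

section
variable {p q : ℕ} (hp : 2 ≤ p) (hq : 2 ≤ q)
include hp hq

/-- few multiples in an arc, for positive reals -/
theorem arc_real (hirr : Irrational (Real.log p / Real.log q)) {K : ℝ} (hK : 1 ≤ K) {H : ℝ}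
    (hKH : K ≤ H) (hH : 2 ≤ Real.log H) {r : ℝ} (hr : 0 < r) (hr8 : r ≤ 1 / 8) {η : ℝ}
    (hη : 0 < η) : ∃ δ : ℝ, 0 < δ ∧ ∀ τ : ℝ, 0 < τ → τ < δ → ∀ d : ℝ, τ ≤ d → d ≤ K * τ →
      ∀ c : ℝ, 0 ≤ c → c < 1 →
      (((win p q (1 / τ) (H / τ)).filter fun n => ‖n • ((d : ℝ) : T) - ((c : ℝ) : T)‖ ≤ r).card : ℝ) ≤
        (80 * r + η) * (win p q (1 / τ) (H / τ)).card := by
  obtain ⟨hlp, hlq⟩ := log_pos' hp hq
  set L := Real.log H with hL
  have hH0 : 0 < H := by linarith
  have hH1 : 1 < H := by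
    by_contra hcon
    push Not at hcon
    have := Real.log_nonpos hH0.le hcon
    linarith
  set W' : ℕ := ⌈K * H⌉₊ + 2 with hW'
  set J : ℕ → ℕ := fun m => ⌊L * ((m : ℝ) + 1) / (10 * r)⌋₊ with hJ
  have hx1 : ∀ m : ℕ, 1 ≤ L * ((m : ℝ) + 1) / (10 * r) := by
    intro m
    rw [le_div_iff₀ (by positivity)]
    have hm : (0 : ℝ) ≤ m := Nat.cast_nonneg m
    nlinarith
  have hJ1 : ∀ m, 1 ≤ J m := fun m => (Nat.one_le_floor_iff _).2 (hx1 m)
  have hJR : ∀ m, (0 : ℝ) < J m := fun m => by exact_mod_cast hJ1 m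
  have hJle : ∀ m, (J m : ℝ) ≤ L * ((m : ℝ) + 1) / (10 * r) := fun m =>
    Nat.floor_le (zero_le_one.trans (hx1 m))
  have hJge : ∀ m : ℕ, L * ((m : ℝ) + 1) / (20 * r) ≤ J m := by
    intro m
    have h1 : L * ((m : ℝ) + 1) / (10 * r) < J m + 1 := Nat.lt_floor_add_one _
    have h2 := hx1 m
    have h3 : L * ((m : ℝ) + 1) / (10 * r) = 2 * (L * ((m : ℝ) + 1) / (20 * r)) := by
      field_simp; norm_num
    have h4 : (1 : ℝ) ≤ J m := by exact_mod_cast hJ1 m
    linarith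
  set R : ℝ := Real.log (K * H + 3) + Real.log K + 1 with hR
  have hM := fun m => thin hp hq hirr hH1 (hJ1 m) R
  choose M hM using hM
  set M0 : ℕ := ∑ m ∈ Finset.range W', M m with hM0
  have hMM : ∀ m ∈ Finset.range W', M m ≤ M0 := fun m hm =>
    Finset.single_le_sum (f := M) (fun _ _ => Nat.zero_le _) hm
  obtain ⟨δ, hδ, hδ2⟩ := card_large hp hq hirr hH1 (10 * M0 / η)
  refine ⟨δ, hδ, fun τ hτ hτδ d hd1 hd2 c hc0 hc1 => ?_⟩
  have hd : 0 < d := hτ.trans_le hd1
  have hcard := hδ2 τ hτ hτδ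
  rw [div_le_iff₀ hη] at hcard
  set W := win p q (1 / τ) (H / τ) with hW
  set xs : ℕ → ℝ := fun m => Real.log ((m : ℝ) + c - r) - Real.log d with hxs
  set I : Finset ℕ := (Finset.range W').filter fun m => 3 / 4 ≤ (m : ℝ) + c - r with hI
  have hW'R : (W' : ℝ) ≤ K * H + 3 := by
    rw [hW']; push_cast
    have := Nat.ceil_lt_add_one (show 0 ≤ K * H by positivity)
    linarith
  have hclose : ∀ m ∈ I, |-Real.log τ - xs m| ≤ R := by
    intro m hm
    rw [hI, Finset.mem_filter, Finset.mem_range] at hm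
    obtain ⟨hm1, hm2⟩ := hm
    have h1 : ((m : ℝ) + 1) ≤ W' := by exact_mod_cast hm1
    have h2 : Real.log ((m : ℝ) + c - r) ≤ Real.log (K * H + 3) :=
      Real.log_le_log (by linarith) (by linarith)
    have h3 : -1 ≤ Real.log ((m : ℝ) + c - r) := by
      rw [Real.le_log_iff_exp_le (by linarith)]
      have h4 : Real.exp (-1) ≤ 3 / 4 := by
        rw [Real.exp_neg]
        have h5 := Real.exp_one_gt_d9
        rw [inv_le_comm₀ (Real.exp_pos _) (by norm_num)]
        linarith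
      linarith
    have h4 : Real.log τ ≤ Real.log d := Real.log_le_log hτ hd1
    have h5 : Real.log d ≤ Real.log K + Real.log τ := by
      rw [← Real.log_mul (by positivity) hτ.ne']
      exact Real.log_le_log hd hd2
    have h6 : 0 ≤ Real.log K := Real.log_nonneg hK
    have h7 : 0 ≤ Real.log (K * H + 3) := Real.log_nonneg (by
      have : 0 ≤ K * H := by positivity
      linarith)
    simp only [hxs]
    rw [abs_le]
    constructor <;> linarith
  have hsub : ((W.filter fun n => ‖n • ((d : ℝ) : T) - ((c : ℝ) : T)‖ ≤ r : Finset ℕ) : Set ℕ) ⊆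
      ⋃ m ∈ I, (fun u : ℕ × ℕ => p ^ u.1 * q ^ u.2) ''
        slab (Real.log p) (Real.log q) (xs m) (L / (2 * J m)) := by
    intro n hn
    rw [Finset.mem_coe, Finset.mem_filter, hW, mem_win] at hn
    obtain ⟨⟨⟨a, b, hab⟩, h1, h2⟩, h3⟩ := hn
    have h4 : 1 ≤ n * d := by
      calc (1 : ℝ) = 1 / τ * τ := by field_simp
        _ ≤ n * d := by gcongr
    have h5 : n * d + 2 ≤ W' := by
      have h6 : (n : ℝ) * d ≤ K * H := by
        calc (n : ℝ) * d ≤ H / τ * (K * τ) := by gcongr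
          _ = K * H := by field_simp
      rw [hW']; push_cast
      have := Nat.le_ceil (K * H)
      linarith
    obtain ⟨m, hm, hg0, hg1, hg2⟩ := arc_pos hc0 hc1 hr hr8 hd h4 h5 h3
    rw [mem_iUnion₂]
    refine ⟨m, ?_, (a, b), ?_, hab.symm⟩
    · rw [hI, Finset.mem_filter]; exact ⟨hm, hg0⟩
    · show xs m ≤ a * Real.log p + b * Real.log q ∧
        a * Real.log p + b * Real.log q < xs m + L / (2 * J m)
      rw [← log_pow_mul hp hq, ← hab]
      refine ⟨hg1, hg2.trans_le ?_⟩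
      have h6 : 5 * r / (m + 1) ≤ L / (2 * J m) := by
        have h7 := hJle m
        rw [le_div_iff₀ (by positivity)] at h7
        rw [div_le_div_iff₀ (by positivity) (by have := hJR m; positivity)]
        linarith
      simp only [hxs]
      linarith
  set F := (W.filter fun n => ‖n • ((d : ℝ) : T) - ((c : ℝ) : T)‖ ≤ r).card with hF
  have h1 : F ≤ ∑ m ∈ I, cnt (Real.log p) (Real.log q) (xs m) (L / (2 * J m)) := by
    rw [hF, ← Set.ncard_coe_finset]
    refine (Set.ncard_le_ncard hsub (I.finite_toSet.biUnion fun m _ =>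
      (slab_finite hlp hlq _ _).image _)).trans ?_
    refine (Finset.set_ncard_biUnion_le _ _).trans (Finset.sum_le_sum fun m _ => ?_)
    exact Set.ncard_image_le (slab_finite hlp hlq _ _)
  have h2 : ∀ m ∈ I, (cnt (Real.log p) (Real.log q) (xs m) (L / (2 * J m)) : ℝ) ≤
      20 * r / L * (W.card + M0) * ((m : ℝ) + 1)⁻¹ := by
    intro m hm
    have hmr : m ∈ Finset.range W' := (Finset.mem_filter.1 hm).1
    have h3 := hM m τ hτ (xs m) (hclose m hm)
    have h4 : (J m : ℝ) * cnt (Real.log p) (Real.log q) (xs m) (L / (2 * J m)) ≤ W.card + M0 := by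
      have : J m * cnt (Real.log p) (Real.log q) (xs m) (L / (2 * J m)) ≤ W.card + M0 :=
        h3.trans (Nat.add_le_add_left (hMM m hmr) _)
      exact_mod_cast this
    have h5 : L * ((m : ℝ) + 1) / (20 * r) *
        cnt (Real.log p) (Real.log q) (xs m) (L / (2 * J m)) ≤ W.card + M0 := by
      refine le_trans ?_ h4
      have := hJge m
      gcongr
    have hL0 : 0 < L := by linarith
    have e : 20 * r / L * (W.card + M0) * ((m : ℝ) + 1)⁻¹ =
        (W.card + M0) / (L * ((m : ℝ) + 1) / (20 * r)) := by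
      field_simp
    rw [e, le_div_iff₀ (by positivity), mul_comm]
    exact h5
  have hL0 : 0 < L := by linarith
  have h3 : (F : ℝ) ≤ 20 * r / L * (W.card + M0) * (1 + Real.log W') := by
    have h4 : (F : ℝ) ≤ ∑ m ∈ I, (cnt (Real.log p) (Real.log q) (xs m) (L / (2 * J m)) : ℝ) := by
      exact_mod_cast h1
    refine h4.trans ((Finset.sum_le_sum h2).trans ?_)
    rw [← Finset.mul_sum]
    refine mul_le_mul_of_nonneg_left ?_ (by positivity)
    have h5 : ∑ m ∈ I, ((m : ℝ) + 1)⁻¹ ≤ ∑ m ∈ Finset.range W', ((m : ℝ) + 1)⁻¹ :=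
      Finset.sum_le_sum_of_subset_of_nonneg (Finset.filter_subset _ _)
        fun _ _ _ => by positivity
    refine h5.trans ?_
    have h6 := harmonic_le_one_add_log W'
    unfold harmonic at h6
    push_cast at h6
    exact h6
  have h4 : 1 + Real.log W' ≤ 4 * L := by
    have h7 : 7 ≤ H := by
      have h8 : Real.exp 2 ≤ H := (Real.le_log_iff_exp_le hH0).1 hH
      have h9 : (7 : ℝ) ≤ Real.exp 2 := by
        have h10 := Real.exp_one_gt_d9
        have e : Real.exp 2 = Real.exp 1 * Real.exp 1 := by rw [← Real.exp_add]; norm_num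
        rw [e]; nlinarith
      linarith
    have h5 : (W' : ℝ) ≤ 2 * (H * H) := by nlinarith
    have h6 : Real.log W' ≤ Real.log (2 * (H * H)) := by
      refine Real.log_le_log ?_ h5
      have : 0 < W' := by omega
      exact_mod_cast this
    rw [Real.log_mul (by norm_num) (by positivity), Real.log_mul hH0.ne' hH0.ne'] at h6
    have h8 : Real.log 2 ≤ 1 := by
      have := Real.log_two_lt_d9
      linarith
    linarith
  have h5 : (F : ℝ) ≤ 80 * r * (W.card + M0) := by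
    calc (F : ℝ) ≤ 20 * r / L * (W.card + M0) * (1 + Real.log W') := h3
      _ ≤ 20 * r / L * (W.card + M0) * (4 * L) := by gcongr
      _ = 80 * r * (W.card + M0) := by field_simp; ring
  have hM00 : (0 : ℝ) ≤ M0 := Nat.cast_nonneg _
  have h6 : 80 * r * (M0 : ℝ) ≤ 10 * M0 := by nlinarith
  linarith

omit hp hq in
/-- a point of the circle is its norm or the negative of its norm -/
lemma eq_or_neg (z : T) : z = ((‖z‖ : ℝ) : T) ∨ z = -((‖z‖ : ℝ) : T) := by
  obtain ⟨d0, rfl⟩ : ∃ d : ℝ, (d : T) = z := QuotientAddGroup.mk_surjective z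
  set d : ℝ := d0 - round d0 with hd
  have hdT : ((d : ℝ) : T) = ((d0 : ℝ) : T) := by
    rw [hd, AddCircle.coe_sub]
    have h3 : (((round d0 : ℤ) : ℝ) : T) = 0 := by
      rw [AddCircle.coe_eq_zero_iff]
      exact ⟨round d0, by rw [zsmul_eq_mul, mul_one]⟩
    rw [h3, sub_zero]
  have hdn : ‖((d0 : ℝ) : T)‖ = |d| := by rw [UnitAddCircle.norm_eq]
  rw [hdn, ← hdT]
  rcases abs_cases d with ⟨h, -⟩ | ⟨h, -⟩
  · left; rw [h]
  · right; rw [h, AddCircle.coe_neg, neg_neg]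

omit hp hq in
lemma exists_rep (c : T) : ∃ x : ℝ, 0 ≤ x ∧ x < 1 ∧ ((x : ℝ) : T) = c := by
  obtain ⟨d0, rfl⟩ : ∃ d : ℝ, (d : T) = c := QuotientAddGroup.mk_surjective c
  refine ⟨Int.fract d0, Int.fract_nonneg _, Int.fract_lt_one _, ?_⟩
  have h2 : Int.fract d0 = d0 - ⌊d0⌋ := rfl
  rw [h2, AddCircle.coe_sub]
  have h3 : ((⌊d0⌋ : ℝ) : T) = 0 := by
    rw [AddCircle.coe_eq_zero_iff]
    exact ⟨⌊d0⌋, by rw [zsmul_eq_mul, mul_one]⟩
  rw [h3, sub_zero]

/-- **Few multiples in an arc.** -/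
theorem arc_win (hirr : Irrational (Real.log p / Real.log q)) {K : ℝ} (hK : 1 ≤ K) {H : ℝ}
    (hKH : K ≤ H) (hH : 2 ≤ Real.log H) {r : ℝ} (hr : 0 < r) (hr8 : r ≤ 1 / 8) {η : ℝ}
    (hη : 0 < η) : ∃ δ : ℝ, 0 < δ ∧ ∀ τ : ℝ, 0 < τ → τ < δ → ∀ z : T, τ ≤ ‖z‖ → ‖z‖ ≤ K * τ →
      ∀ c : T, (((win p q (1 / τ) (H / τ)).filter fun n => ‖n • z - c‖ ≤ r).card : ℝ) ≤
        (80 * r + η) * (win p q (1 / τ) (H / τ)).card := by
  obtain ⟨δ, hδ, h⟩ := arc_real hp hq hirr hK hKH hH hr hr8 hη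
  refine ⟨δ, hδ, fun τ hτ hτδ z hz1 hz2 c => ?_⟩
  rcases eq_or_neg z with hz | hz
  · obtain ⟨x, hx0, hx1, rfl⟩ := exists_rep c
    have := h τ hτ hτδ ‖z‖ hz1 hz2 x hx0 hx1
    rwa [← hz] at this
  · obtain ⟨x, hx0, hx1, hx⟩ := exists_rep (-c)
    have := h τ hτ hτδ ‖z‖ hz1 hz2 x hx0 hx1
    refine le_trans (le_of_eq ?_) this
    congr 2
    refine Finset.filter_congr fun n _ => ?_
    have e : n • z - c = -(n • ((‖z‖ : ℝ) : T) - ((x : ℝ) : T)) := by
      rw [hx]
      conv_lhs => rw [hz]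
      rw [smul_neg]; abel
    rw [e, norm_neg]

end

end Pool.Agent.W764.HL
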