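import Pool.Agent.W764.SH.Decomp
import Pool.Agent.W764.FB.Cover

/-!
Couplings of invariant measures with well distributed differences.
-/

set_option autoImplicit false

open MeasureTheory Filter Topology Set
open scoped ENNReal

namespace Pool.Agent.W764.HL

open Pool.Agent.W764.FB Pool.Agent.W764.SH
open Pool.Agent.H706R2.Ren (U measurableSet_U)

/-- marginals -/
noncomputable def marg {m : ℕ} (lam : Measure (Fin m → T)) (i : Fin m) : Measure T :=
  lam.map fun z => z i

instance {m : ℕ} (lam : Measure (Fin m → T)) [IsProbabilityMeasure lam] (i : Fin m) :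
    IsProbabilityMeasure (marg lam i) :=
  Measure.isProbabilityMeasure_map (measurable_pi_apply i).aemeasurable

lemma marg_apply {m : ℕ} (lam : Measure (Fin m → T)) (i : Fin m) {A : Set T}
    (hA : MeasurableSet A) : marg lam i A = lam {z | z i ∈ A} :=
  Measure.map_apply (measurable_pi_apply i) hA

lemma marg_mp {m : ℕ} {lam : Measure (Fin m → T)} (i : Fin m) {n : ℕ}
    (h : MeasurePreserving (fun z : Fin m → T => n • z) lam lam) :
    MeasurePreserving (fun x : T => n • x) (marg lam i) (marg lam i) := by
  have hn : Measurable fun x : T => n • x := (continuous_nsmul n).measurable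
  refine ⟨hn, ?_⟩
  unfold marg
  rw [Measure.map_map hn (measurable_pi_apply i)]
  have e : ((fun x : T => n • x) ∘ fun z : Fin m → T => z i) =
      (fun z : Fin m → T => z i) ∘ fun z : Fin m → T => n • z := by
    ext z; rfl
  rw [e, ← Measure.map_map (measurable_pi_apply i) h.measurable, h.map_eq]

/-- the mean of the marginals -/
noncomputable def mean {m : ℕ} (lam : Measure (Fin m → T)) : Measure T :=
  (m : ℝ≥0∞)⁻¹ • ∑ i, marg lam i

lemma mean_apply {m : ℕ} (lam : Measure (Fin m → T)) (A : Set T) :
    mean lam A = (m : ℝ≥0∞)⁻¹ * ∑ i, marg lam i A := by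
  unfold mean
  rw [Measure.smul_apply, Measure.finsetSum_apply, smul_eq_mul]

lemma mean_prob {m : ℕ} (hm : 1 ≤ m) (lam : Measure (Fin m → T)) [IsProbabilityMeasure lam] :
    IsProbabilityMeasure (mean lam) := by
  refine ⟨?_⟩
  rw [mean_apply]
  simp only [measure_univ, Finset.sum_const, Finset.card_univ, Fintype.card_fin, nsmul_eq_mul,
    mul_one]
  exact ENNReal.inv_mul_cancel (by exact_mod_cast (by omega : m ≠ 0)) (ENNReal.natCast_ne_top m)

lemma mean_mp {m : ℕ} {lam : Measure (Fin m → T)} {n : ℕ}
    (h : MeasurePreserving (fun z : Fin m → T => n • z) lam lam) :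
    MeasurePreserving (fun x : T => n • x) (mean lam) (mean lam) := by
  have hn : Measurable fun x : T => n • x := (continuous_nsmul n).measurable
  refine ⟨hn, ?_⟩
  ext A hA
  rw [Measure.map_apply hn hA, mean_apply, mean_apply]
  congr 1
  refine Finset.sum_congr rfl fun i _ => ?_
  exact (marg_mp i h).measure_preimage hA.nullMeasurableSet

lemma marg_le {m : ℕ} (hm : 1 ≤ m) (lam : Measure (Fin m → T)) (i : Fin m) (A : Set T) :
    marg lam i A ≤ m * mean lam A := by
  rw [mean_apply, ← mul_assoc, ENNReal.mul_inv_cancel (by exact_mod_cast (by omega : m ≠ 0))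
    (ENNReal.natCast_ne_top m), one_mul]
  exact Finset.single_le_sum (f := fun j => marg lam j A) (fun _ _ => zero_le) (Finset.mem_univ i)

lemma marg_ac {m : ℕ} (hm : 1 ≤ m) (lam : Measure (Fin m → T)) (i : Fin m) :
    marg lam i ≪ mean lam := by
  intro A hA
  have := marg_le hm lam i A
  rw [hA, mul_zero] at this
  exact le_antisymm this zero_le

/-- **Couplings with well distributed differences.** -/
theorem core {m p q : ℕ} (hp : 2 ≤ p) (hq : 2 ≤ q) (hpq : Nat.Coprime p q)
    (lam : Measure (Fin m → T)) [IsProbabilityMeasure lam]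
    (hip : MeasurePreserving (fun z : Fin m → T => p • z) lam lam)
    (hiq : MeasurePreserving (fun z : Fin m → T => q • z) lam lam) {C ρ0 : ℝ} (hC : 0 < C)
    (hρ0 : 0 < ρ0) (harc : ∀ i j, i ≠ j → ∀ c : T, ∀ ρ : ℝ, 0 < ρ → ρ ≤ ρ0 →
      lam.real {z | ‖z i - z j - c‖ ≤ ρ} ≤ C * ρ) :
    ∃ α : Fin m → ℝ, (∀ i, 0 ≤ α i ∧ α i ≤ 1) ∧ ∑ i, (1 - α i) ≤ 1 ∧
      ∀ i, ∀ A : Set T, MeasurableSet A → α i * (volume : Measure T).real A ≤
        lam.real {z | z i ∈ A} := by
  rcases Nat.eq_zero_or_pos m with rfl | hm
  · exact ⟨fun _ => 0, fun i => i.elim0, by simp, fun i => i.elim0⟩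
  have := mean_prob hm lam
  set ν := mean lam with hν
  obtain ⟨D, hDm, hDp, hDq, hD, B, hBm, hB0, hB⟩ := decomp hp hq hpq ν (mean_mp hip) (mean_mp hiq)
  have hmR : (0 : ℝ) < m := by exact_mod_cast hm
  -- the absolutely continuous parts
  have hres : ∀ i, (marg lam i).restrict D = marg lam i D • (volume : Measure T) := by
    intro i
    have hac := marg_ac hm lam i
    have h1 := restrict_mp (marg_mp i hip) hDm (hac.ae_le hDp)
    have h2 : (marg lam i).restrict D ≪ (volume : Measure T) := by
      refine (hac.restrict D).trans ?_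
      rw [← hν, hD]
      exact Measure.smul_absolutelyContinuous
    obtain ⟨c, hc⟩ := (AddCircle.ergodic_nsmul (T := 1) (n := p) (by omega)).eq_smul_of_absolutelyContinuous h1 h2
    have h3 : (marg lam i).restrict D univ = (c • (volume : Measure T)) univ := by rw [hc]
    rw [Measure.restrict_apply_univ, Measure.smul_apply, measure_univ, smul_eq_mul, mul_one] at h3
    rw [hc, h3]
  -- the singular parts are disjoint
  set S : Fin m → Set (Fin m → T) := fun i => {z | z i ∈ Dᶜ} with hS
  have hSm : ∀ i, MeasurableSet (S i) := fun i => measurable_pi_apply i hDm.compl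
  have hdisj : ∀ i j, i ≠ j → lam (S i ∩ S j) = 0 := by
    intro i j hij
    rcases eq_or_ne (ν Dᶜ) 0 with h0 | h0
    · have h1 : lam (S i) = 0 := by
        rw [← marg_apply lam i hDm.compl]
        exact marg_ac hm lam i h0
      exact measure_mono_null inter_subset_left h1
    · set ν' : Measure T := (ν Dᶜ)⁻¹ • ν.restrict Dᶜ with hν'
      have hν1 : IsProbabilityMeasure ν' := by
        refine ⟨?_⟩
        rw [hν', Measure.smul_apply, Measure.restrict_apply_univ, smul_eq_mul,
          ENNReal.inv_mul_cancel h0 (measure_ne_top _ _)]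
      have hmp : MeasurePreserving (fun x : T => p • x) ν' ν' := by
        have h3 := restrict_mp (mean_mp hip) hDm.compl (hDp.mono fun x hx => not_congr hx)
        refine ⟨h3.measurable, ?_⟩
        rw [hν', Measure.map_smul, hν, h3.map_eq]
      have hinj : EssInj p ν' := by
        refine ⟨B, hBm, ?_, hB⟩
        rw [hν', Measure.smul_apply, smul_eq_mul, Measure.restrict_apply hBm.compl]
        have : Bᶜ ∩ Dᶜ = Dᶜ \ B := by
          ext x; simp only [mem_inter_iff, mem_compl_iff, Set.mem_sdiff]; tauto
        rw [this, hB0, mul_zero]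
      have key : ∀ e : ℝ, 0 < e → lam.real (S i ∩ S j) ≤ e := by
        intro e he
        set c : ℝ := min (ρ0 / 2) (e / (4 * C)) with hc
        have hc0 : 0 < c := by positivity
        obtain ⟨K, cen, ρ, hK, hρ, hρK, hU⟩ := covering hp ν' hmp hinj
          (κ := e / (4 * m)) (by positivity) hc0
        have hKR : (1 : ℝ) ≤ K := by exact_mod_cast hK
        have hρc : ρ ≤ c := by
          have h1 : ρ * (1 : ℝ) ^ 2 ≤ ρ * (K : ℝ) ^ 2 := by gcongr
          linarith
        set Z : Set T := Dᶜ ∩ (U cen ρ)ᶜ with hZ
        have hZm : MeasurableSet Z := hDm.compl.inter (measurableSet_U cen ρ).compl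
        have hνZ : ν.real Z ≤ e / (4 * m) := by
          have h1 : ν Z ≤ ν' (U cen ρ)ᶜ := by
            rw [hν', Measure.smul_apply, smul_eq_mul,
              Measure.restrict_apply (measurableSet_U cen ρ).compl, inter_comm]
            have h2 : 1 ≤ (ν Dᶜ)⁻¹ := by
              rw [ENNReal.one_le_inv]; exact prob_le_one
            calc ν Z = 1 * ν Z := (one_mul _).symm
              _ ≤ _ := by gcongr
          exact (ENNReal.toReal_mono (measure_ne_top _ _) h1).trans hU
        have hmargZ : ∀ i, (marg lam i).real Z ≤ e / 4 := by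
          intro i
          have h1 : (marg lam i).real Z ≤ m * ν.real Z := by
            have := ENNReal.toReal_mono (ENNReal.mul_ne_top (ENNReal.natCast_ne_top m)
              (measure_ne_top ν Z)) (marg_le hm lam i Z)
            rwa [ENNReal.toReal_mul, ENNReal.toReal_natCast] at this
          calc (marg lam i).real Z ≤ m * ν.real Z := h1
            _ ≤ m * (e / (4 * m)) := by gcongr
            _ = e / 4 := by field_simp
        have hsub : S i ∩ S j ⊆ {z | z i ∈ Z} ∪ ({z | z j ∈ Z} ∪
            ⋃ w ∈ (Finset.univ : Finset (Fin K × Fin K)),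
              {z : Fin m → T | ‖z i - z j - (cen w.1 - cen w.2)‖ ≤ 2 * ρ}) := by
          rintro z ⟨hz1, hz2⟩
          by_cases h1 : z i ∈ U cen ρ
          · by_cases h2 : z j ∈ U cen ρ
            · right; right
              unfold U at h1 h2
              obtain ⟨a, ha⟩ := mem_iUnion.1 h1
              obtain ⟨b, hb⟩ := mem_iUnion.1 h2
              rw [mem_iUnion₂]
              refine ⟨(a, b), Finset.mem_univ _, ?_⟩
              rw [Metric.mem_closedBall, dist_eq_norm] at ha hb
              show ‖z i - z j - (cen a - cen b)‖ ≤ 2 * ρ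
              have e : z i - z j - (cen a - cen b) = (z i - cen a) - (z j - cen b) := by abel
              rw [e]
              exact (norm_sub_le _ _).trans (by linarith)
            · right; left; exact ⟨hz2, h2⟩
          · left; exact ⟨hz1, h1⟩
        have h1 : lam.real (S i ∩ S j) ≤ lam.real {z | z i ∈ Z} + (lam.real {z | z j ∈ Z} +
            ∑ w : Fin K × Fin K, lam.real
              {z : Fin m → T | ‖z i - z j - (cen w.1 - cen w.2)‖ ≤ 2 * ρ}) := by
          refine (measureReal_mono hsub (measure_ne_top _ _)).trans ?_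
          refine (measureReal_union_le _ _).trans (add_le_add le_rfl ?_)
          refine (measureReal_union_le _ _).trans (add_le_add le_rfl ?_)
          exact measureReal_biUnion_finset_le _ _
        have h2 : ∀ i, lam.real {z | z i ∈ Z} ≤ e / 4 := by
          intro i
          have := hmargZ i
          rwa [measureReal_def, marg_apply lam i hZm] at this
        have h3 : ∑ w : Fin K × Fin K, lam.real
            {z : Fin m → T | ‖z i - z j - (cen w.1 - cen w.2)‖ ≤ 2 * ρ} ≤
            (K : ℝ) * K * (C * (2 * ρ)) := by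
          refine (Finset.sum_le_card_nsmul _ _ (C * (2 * ρ)) fun w _ =>
            harc i j hij _ (2 * ρ) (by positivity) ?_).trans ?_
          · have := min_le_left (ρ0 / 2) (e / (4 * C))
            linarith
          · rw [Finset.card_univ, Fintype.card_prod, Fintype.card_fin, nsmul_eq_mul]
            push_cast
            exact le_rfl
        have h4 : (K : ℝ) * K * (C * (2 * ρ)) ≤ e / 2 := by
          have h5 : c ≤ e / (4 * C) := min_le_right _ _
          rw [le_div_iff₀ (by positivity)] at h5
          have h6 : (K : ℝ) * K * (C * (2 * ρ)) = 2 * C * (ρ * (K : ℝ) ^ 2) := by ring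
          rw [h6]
          have h7 : 2 * C * (ρ * (K : ℝ) ^ 2) ≤ 2 * C * c := by gcongr
          linarith
        have := h2 i
        have := h2 j
        linarith
      have h1 : lam.real (S i ∩ S j) = 0 :=
        le_antisymm (le_of_forall_pos_le_add fun e he => by rw [zero_add]; exact key e he)
          measureReal_nonneg
      exact (measureReal_eq_zero_iff).1 h1
  -- conclusion
  refine ⟨fun i => (marg lam i).real D, fun i => ⟨measureReal_nonneg, measureReal_le_one⟩, ?_, ?_⟩
  · have h1 : ∀ i, 1 - (marg lam i).real D = lam.real (S i) := by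
      intro i
      have h2 : (marg lam i).real Dᶜ = 1 - (marg lam i).real D := probReal_compl_eq_one_sub hDm
      rw [← h2, measureReal_def, marg_apply lam i hDm.compl, measureReal_def]
    simp_rw [h1]
    have h3 : lam (⋃ i ∈ (Finset.univ : Finset (Fin m)), S i) = ∑ i, lam (S i) :=
      measure_biUnion_finset₀ (fun i _ j _ hij => hdisj i j hij)
        fun i _ => (hSm i).nullMeasurableSet
    have h4 : ∑ i, lam (S i) ≤ 1 := by rw [← h3]; exact prob_le_one
    have h5 := ENNReal.toReal_mono ENNReal.one_ne_top h4
    rw [ENNReal.toReal_sum fun i _ => measure_ne_top _ _, ENNReal.toReal_one] at h5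
    exact h5
  · intro i A hA
    have h1 : ((marg lam i).restrict D) A ≤ marg lam i A := Measure.restrict_apply_le _ _
    rw [hres i, Measure.smul_apply, smul_eq_mul, marg_apply lam i hA] at h1
    have h2 := ENNReal.toReal_mono (measure_ne_top _ _) h1
    rw [ENNReal.toReal_mul] at h2
    exact h2

end Pool.Agent.W764.HL
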