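import Pool.Agent.W764.HL.Pair

/-!
Sets without clusters have small covering numbers; the exceptional set of full equidistribution.
-/

set_option autoImplicit false

open MeasureTheory Filter Topology Set
open scoped ENNReal

namespace Pool.Agent.W764.HL

open Pool.Agent.W764.FB Pool.Agent.W764.SH

/-- no `m` points of `B` have mutual distances in `[τ, 2 K τ]` -/
def NoCluster (B : Set T) (m : ℕ) (K τ : ℝ) : Prop :=
  ¬ ∃ x : Fin m → T, (∀ i, x i ∈ B) ∧ ∀ i j, i ≠ j → τ ≤ ‖x i - x j‖ ∧ ‖x i - x j‖ ≤ 2 * K * τ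

lemma cover_step {B : Set T} {m : ℕ} {K τ : ℝ} (h : NoCluster B m K τ) (hτ : 0 < τ) (y : T) :
    ∃ F : Finset T, F.card ≤ m ∧ B ∩ Metric.closedBall y (K * τ) ⊆
      ⋃ t ∈ F, Metric.closedBall t τ := by
  classical
  set P : Finset T → Prop := fun F => (∀ x ∈ F, x ∈ B ∩ Metric.closedBall y (K * τ)) ∧
    ∀ x ∈ F, ∀ x' ∈ F, x ≠ x' → τ ≤ ‖x - x'‖ with hP
  have hcard : ∀ F, P F → F.card ≤ m := by
    intro F hF
    by_contra hlt
    push Not at hlt
    obtain ⟨G, hG, hGc⟩ := Finset.exists_subset_card_eq hlt.le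
    apply h
    refine ⟨fun i => (G.equivFinOfCardEq hGc).symm i, fun i => ?_, fun i j hij => ?_⟩
    · exact (hF.1 _ (hG ((G.equivFinOfCardEq hGc).symm i).2)).1
    · have h1 := hG ((G.equivFinOfCardEq hGc).symm i).2
      have h2 := hG ((G.equivFinOfCardEq hGc).symm j).2
      refine ⟨hF.2 _ h1 _ h2 ?_, ?_⟩
      · intro hc
        exact hij ((G.equivFinOfCardEq hGc).symm.injective (Subtype.ext hc))
      · have h3 := (hF.1 _ h1).2
        have h4 := (hF.1 _ h2).2
        rw [Metric.mem_closedBall, dist_eq_norm] at h3 h4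
        have e : (((G.equivFinOfCardEq hGc).symm i : T) - ((G.equivFinOfCardEq hGc).symm j : T)) =
          (((G.equivFinOfCardEq hGc).symm i : T) - y) -
            (((G.equivFinOfCardEq hGc).symm j : T) - y) := by abel
        rw [e]
        exact (norm_sub_le _ _).trans (by linarith)
  set S : Set ℕ := {k | ∃ F, P F ∧ F.card = k} with hS
  have hSne : S.Nonempty := ⟨0, ∅, by simp [hP], rfl⟩
  have hSb : BddAbove S := ⟨m, by rintro k ⟨F, hF, rfl⟩; exact hcard F hF⟩
  obtain ⟨F, hF, hFk⟩ := Nat.sSup_mem hSne hSb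
  refine ⟨F, hcard F hF, fun z hz => ?_⟩
  by_contra hcon
  simp only [mem_iUnion, Metric.mem_closedBall, dist_eq_norm, not_exists, not_le] at hcon
  have hzF : z ∉ F := by
    intro hzF
    have := hcon z hzF
    rw [sub_self, norm_zero] at this
    linarith
  have hP' : P (insert z F) := by
    refine ⟨fun x hx => ?_, fun x hx x' hx' hne => ?_⟩
    · rcases Finset.mem_insert.1 hx with rfl | hx
      · exact hz
      · exact hF.1 x hx
    · rcases Finset.mem_insert.1 hx with hx1 | hx1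
      · rcases Finset.mem_insert.1 hx' with hx2 | hx2
        · exact absurd (hx1.trans hx2.symm) hne
        · rw [hx1]; exact (hcon x' hx2).le
      · rcases Finset.mem_insert.1 hx' with hx2 | hx2
        · rw [hx2, norm_sub_rev]; exact (hcon x hx1).le
        · exact hF.2 x hx1 x' hx2 hne
  have h1 : (insert z F).card ≤ sSup S := le_csSup hSb ⟨_, hP', rfl⟩
  rw [Finset.card_insert_of_notMem hzF, hFk] at h1
  omega

lemma cover_iter {B : Set T} {m : ℕ} {K ρ τ0 : ℝ} (hK : 1 ≤ K) (hρ : 0 < ρ)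
    (h : ∀ τ, ρ ≤ τ → τ < τ0 → NoCluster B m K τ) (n : ℕ) (hn : ∀ i, i < n → K ^ i * ρ < τ0)
    (y : T) : ∃ F : Finset T, F.card ≤ m ^ n ∧ B ∩ Metric.closedBall y (K ^ n * ρ) ⊆
      ⋃ t ∈ F, Metric.closedBall t ρ := by
  classical
  induction n generalizing y with
  | zero =>
    refine ⟨{y}, by simp, fun z hz => ?_⟩
    simp only [mem_iUnion, Finset.mem_singleton]
    refine ⟨y, rfl, ?_⟩
    have := hz.2
    rwa [pow_zero, one_mul] at this
  | succ n ih =>
    have ih' := ih fun i hi => hn i (by omega)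
    have hge : ρ ≤ K ^ n * ρ := by
      have : 1 ≤ K ^ n := one_le_pow₀ hK
      nlinarith
    obtain ⟨F, hF, hF2⟩ := cover_step (h (K ^ n * ρ) hge (hn n (by omega))) (by positivity) y
    choose G hG hG2 using ih'
    refine ⟨F.biUnion G, ?_, fun z hz => ?_⟩
    · refine Finset.card_biUnion_le.trans ?_
      refine (Finset.sum_le_card_nsmul _ _ (m ^ n) fun t _ => hG t).trans ?_
      rw [smul_eq_mul, pow_succ, mul_comm]
      exact Nat.mul_le_mul_left _ hF
    · have e : K ^ (n + 1) * ρ = K * (K ^ n * ρ) := by ring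
      rw [e] at hz
      have h1 := hF2 hz
      rw [mem_iUnion₂] at h1
      obtain ⟨t, ht, hzt⟩ := h1
      have h2 := hG2 t ⟨hz.1, hzt⟩
      rw [mem_iUnion₂] at h2 ⊢
      obtain ⟨u, hu, hzu⟩ := h2
      exact ⟨u, Finset.mem_biUnion.2 ⟨t, ht, hu⟩, hzu⟩

/-- **Covering numbers of sets without clusters.** -/
lemma cover_main {m : ℕ} (hm : 1 ≤ m) {K s τ0 : ℝ} (hK : 1 < K) (hs : 0 ≤ s)
    (hmK : (m : ℝ) ≤ K ^ s) (hτ0 : 0 < τ0) : ∃ C : ℝ, 0 < C ∧ ∀ (B : Set T) (ρ : ℝ), 0 < ρ →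
      ρ ≤ 1 → (∀ τ, ρ ≤ τ → τ < τ0 → NoCluster B m K τ) →
      ∃ F : Finset T, (F.card : ℝ) ≤ C * ρ ^ (-s) ∧ B ⊆ ⋃ t ∈ F, Metric.closedBall t ρ := by
  classical
  set R : ℝ := min (τ0 / 2) 1 with hR
  have hR0 : 0 < R := by positivity
  have hR1 : R ≤ 1 := min_le_right _ _
  have hRτ : R < τ0 := by
    have := min_le_left (τ0 / 2) 1
    linarith
  obtain ⟨t, -, htf, ht⟩ := (isCompact_univ (X := T)).finite_cover_balls hR0
  set G : Finset T := htf.toFinset with hG
  have hGcov : ∀ z : T, ∃ y ∈ G, z ∈ Metric.closedBall y R := by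
    intro z
    have := ht (mem_univ z)
    rw [mem_iUnion₂] at this
    obtain ⟨y, hy, hzy⟩ := this
    exact ⟨y, htf.mem_toFinset.2 hy, Metric.ball_subset_closedBall hzy⟩
  have hm1 : (1 : ℝ) ≤ m := by exact_mod_cast hm
  refine ⟨(G.card + 1) * m, by positivity, fun B ρ hρ hρ1 h => ?_⟩
  rcases lt_or_ge R ρ with hRρ | hRρ
  · refine ⟨G, ?_, fun z _ => ?_⟩
    · have h1 : 1 ≤ ρ ^ (-s) := Real.one_le_rpow_of_pos_of_le_one_of_nonpos hρ hρ1 (by linarith)
      have h2 : (G.card : ℝ) ≤ (G.card + 1) * m := by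
        have : (0 : ℝ) ≤ G.card := Nat.cast_nonneg _
        nlinarith
      have h3 : 0 ≤ ((G.card : ℝ) + 1) * m := by positivity
      calc (G.card : ℝ) ≤ (G.card + 1) * m * 1 := by linarith
        _ ≤ _ := by gcongr
    · obtain ⟨y, hy, hzy⟩ := hGcov z
      rw [mem_iUnion₂]
      exact ⟨y, hy, Metric.closedBall_subset_closedBall hRρ.le hzy⟩
  · -- choose the number of steps
    obtain ⟨n, hn1, hn2⟩ : ∃ n : ℕ, K ^ n ≤ R / ρ ∧ R / ρ < K ^ (n + 1) := by
      have h1 : 1 ≤ R / ρ := by rwa [le_div_iff₀ hρ, one_mul]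
      exact exists_nat_pow_near h1 hK
    rw [le_div_iff₀ hρ] at hn1
    rw [div_lt_iff₀ hρ] at hn2
    have hstep : ∀ i, i < n + 1 → K ^ i * ρ < τ0 := by
      intro i hi
      have h1 : K ^ i ≤ K ^ n := pow_le_pow_right₀ hK.le (by omega)
      have h2 : K ^ i * ρ ≤ K ^ n * ρ := by gcongr
      linarith
    have hcov := cover_iter hK.le hρ h (n + 1) hstep
    choose F hF hF2 using hcov
    refine ⟨G.biUnion F, ?_, fun z hz => ?_⟩
    · have h1 : (G.biUnion F).card ≤ G.card * m ^ (n + 1) := by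
        refine Finset.card_biUnion_le.trans ?_
        refine (Finset.sum_le_card_nsmul _ _ (m ^ (n + 1)) fun t _ => hF t).trans ?_
        rw [smul_eq_mul]
      have h2 : (m : ℝ) ^ n ≤ ρ ^ (-s) := by
        have h3 : (m : ℝ) ^ n ≤ (K ^ s) ^ n := by gcongr
        have h4 : (K ^ s) ^ n = (K ^ n) ^ s := by
          rw [← Real.rpow_natCast (K ^ s) n, ← Real.rpow_mul (by linarith), mul_comm,
            Real.rpow_mul (by linarith), Real.rpow_natCast]
        have h5 : (K ^ n) ^ s ≤ (ρ⁻¹) ^ s := by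
          refine Real.rpow_le_rpow (by positivity) ?_ hs
          rw [← one_div, le_div_iff₀ hρ]
          linarith
        have h6 : (ρ⁻¹) ^ s = ρ ^ (-s) := by
          rw [Real.rpow_neg hρ.le, Real.inv_rpow hρ.le]
        rw [← h6]
        exact h3.trans (h4.le.trans h5)
      calc ((G.biUnion F).card : ℝ) ≤ ((G.card * m ^ (n + 1) : ℕ) : ℝ) := by exact_mod_cast h1
        _ = G.card * m * (m : ℝ) ^ n := by push_cast; ring
        _ ≤ (G.card + 1) * m * ρ ^ (-s) := by
            gcongr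
            linarith
    · obtain ⟨y, hy, hzy⟩ := hGcov z
      have h1 := hF2 y ⟨hz, Metric.closedBall_subset_closedBall hn2.le hzy⟩
      rw [mem_iUnion₂] at h1 ⊢
      obtain ⟨u, hu, hzu⟩ := h1
      exact ⟨u, Finset.mem_biUnion.2 ⟨y, hy, hu⟩, hzu⟩

end Pool.Agent.W764.HL
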