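import Pool.Agent.W764.HL.Dim

/-!
Full equidistribution in windows outside a set of packing dimension zero.
-/

set_option autoImplicit false

open MeasureTheory Filter Topology Set
open scoped ENNReal

namespace Pool.Agent.W764.HL

open Pool.Agent.W764.FB Pool.Agent.W764.SH

/-- the multiples of `x` in the window are `ε`-equidistributed -/
def Good (p q : ℕ) (ε X Y : ℝ) (x : T) : Prop :=
  (win p q X Y).Nonempty ∧ ∀ c : T, ∀ r : ℝ, 0 ≤ r → r ≤ 1 / 2 →
    |(vis p q X Y x c r : ℝ) - 2 * r * (win p q X Y).card| ≤ ε * (win p q X Y).card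

lemma norm_half : ‖(((1 / 2 : ℝ) : ℝ) : T)‖ = 1 / 2 := by
  rw [UnitAddCircle.norm_eq]
  have h : round (1 / 2 : ℝ) = 1 := by
    rw [round_eq]; norm_num
  rw [h]; norm_num

lemma vis_disj {p q : ℕ} {X Y : ℝ} {x c : T} {r r' : ℝ} (h : r + r' < 1 / 2) :
    vis p q X Y x c r + vis p q X Y x (c + (((1 / 2 : ℝ) : ℝ) : T)) r' ≤ (win p q X Y).card := by
  classical
  unfold vis
  rw [← Finset.card_union_of_disjoint]
  · refine Finset.card_le_card fun n hn => ?_
    rcases Finset.mem_union.1 hn with hn | hn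
    · exact (Finset.mem_filter.1 hn).1
    · exact (Finset.mem_filter.1 hn).1
  · rw [Finset.disjoint_left]
    intro n hn1 hn2
    have h1 := (Finset.mem_filter.1 hn1).2
    have h2 := (Finset.mem_filter.1 hn2).2
    have h3 : ‖(((1 / 2 : ℝ) : ℝ) : T)‖ ≤ r + r' := by
      have e : ((((1 / 2 : ℝ) : ℝ) : T)) = (n • x - c) - (n • x - (c + (((1 / 2 : ℝ) : ℝ) : T))) := by
        abel
      rw [e]
      exact (norm_sub_le _ _).trans (add_le_add h1 h2)
    rw [norm_half] at h3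
    linarith

lemma good_of_lower {p q : ℕ} {ε X Y θ : ℝ} (hε : 0 < ε) {x : T} (hne : (win p q X Y).Nonempty)
    (hθ : 1 - ε ≤ θ) (h : ∀ c : T, ∀ r : ℝ, r ≤ 1 / 2 →
      (2 * r * θ - ε) * (win p q X Y).card ≤ (vis p q X Y x c r : ℝ)) :
    Good p q (3 * ε) X Y x := by
  classical
  set N : ℝ := ((win p q X Y).card : ℝ) with hN
  have hN0 : 0 ≤ N := Nat.cast_nonneg _
  have hlow : ∀ c : T, ∀ r : ℝ, 0 ≤ r → r ≤ 1 / 2 → (2 * r - 2 * ε) * N ≤
      (vis p q X Y x c r : ℝ) := by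
    intro c r hr0 hr
    refine le_trans ?_ (h c r hr)
    have h1 : 2 * r - 2 * ε ≤ 2 * r * θ - ε := by nlinarith
    gcongr
  refine ⟨hne, fun c r hr0 hr => ?_⟩
  rw [abs_le]
  constructor
  · have h1 := hlow c r hr0 hr
    nlinarith
  · rcases le_or_gt (1 / 2) (r + ε / 2) with h1 | h1
    · have h2 : (vis p q X Y x c r : ℝ) ≤ N := by
        rw [hN]
        exact_mod_cast Finset.card_filter_le _ _
      have h3 : 1 * N ≤ (2 * r + ε) * N := by gcongr; linarith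
      nlinarith
    · have h2 := hlow (c + (((1 / 2 : ℝ) : ℝ) : T)) (1 / 2 - r - 3 / 4 * ε + ε / 4) (by linarith)
        (by linarith)
      have h3 : vis p q X Y x c r + vis p q X Y x (c + (((1 / 2 : ℝ) : ℝ) : T))
          (1 / 2 - r - 3 / 4 * ε + ε / 4) ≤ (win p q X Y).card := vis_disj (by linarith)
      have h4 : (vis p q X Y x c r : ℝ) + vis p q X Y x (c + (((1 / 2 : ℝ) : ℝ) : T))
          (1 / 2 - r - 3 / 4 * ε + ε / 4) ≤ N := by
        rw [hN]; exact_mod_cast h3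
      nlinarith

/-- **Few points are never well distributed.** -/
theorem few {p q : ℕ} (hp : 2 ≤ p) (hq : 2 ≤ q) (hpq : Nat.Coprime p q) {ε s : ℝ} (hε : 0 < ε)
    (hs : 0 < s) : ∃ H0 : ℝ, 1 < H0 ∧ ∀ H : ℝ, H0 ≤ H → ∀ X0 : ℝ, ∃ C : ℝ, 0 < C ∧ ∀ Y : ℝ,
      1 ≤ Y → ∃ F : Finset T, (F.card : ℝ) ≤ C * Y ^ s ∧
        {x : T | ∀ X : ℝ, X0 ≤ X → X ≤ Y → ¬ Good p q ε X (H * X) x} ⊆
          ⋃ t ∈ F, Metric.closedBall t (1 / Y) := by
  classical
  set ε1 : ℝ := ε / 3 with hε1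
  have hε10 : 0 < ε1 := by positivity
  obtain ⟨m0, hm0⟩ := exists_nat_ge (1 / ε1)
  set m : ℕ := m0 + 1 with hm
  have hmR : (0 : ℝ) < m := by positivity
  have hm1 : 1 / (m : ℝ) ≤ ε1 := by
    have h1 : 1 / ε1 ≤ m := hm0.trans (by rw [hm]; push_cast; linarith)
    rw [div_le_iff₀ hε10] at h1
    rw [div_le_iff₀ hmR]; linarith
  set K : ℝ := max 2 ((m : ℝ) ^ (1 / s)) with hK
  have hK1 : 1 < K := lt_of_lt_of_le one_lt_two (le_max_left _ _)
  have hmK : (m : ℝ) ≤ K ^ s := by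
    have h1 : ((m : ℝ) ^ (1 / s)) ^ s = m := by
      rw [← Real.rpow_mul hmR.le, one_div, inv_mul_cancel₀ hs.ne', Real.rpow_one]
    calc (m : ℝ) = ((m : ℝ) ^ (1 / s)) ^ s := h1.symm
      _ ≤ K ^ s := Real.rpow_le_rpow (by positivity) (le_max_right _ _) hs.le
  obtain ⟨H0, hH0, h⟩ := cluster hp hq hpq m (K := 2 * K) (by linarith) hε10
  refine ⟨H0, hH0, fun H hH X0 => ?_⟩
  obtain ⟨δ, hδ, h2⟩ := h H hH
  have hmax : 0 < max X0 1 := lt_max_of_lt_right one_pos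
  set τ0 : ℝ := min δ (1 / max X0 1) with hτ0
  have hτ00 : 0 < τ0 := by positivity
  obtain ⟨C, hC, hcov⟩ := cover_main (m := m) (by omega) hK1 hs.le hmK hτ00
  refine ⟨C, hC, fun Y hY => ?_⟩
  have hY0 : 0 < Y := by linarith
  set B : Set T := {x : T | ∀ X : ℝ, X0 ≤ X → X ≤ Y → ¬ Good p q ε X (H * X) x} with hB
  obtain ⟨F, hF1, hF2⟩ := hcov B (1 / Y) (by positivity)
    (by rw [div_le_iff₀ hY0]; linarith) (by
      rintro τ hτ1 hτ2 ⟨x, hxB, hx⟩
      have hτ : 0 < τ := lt_of_lt_of_le (by positivity) hτ1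
      obtain ⟨hne, h3⟩ := h2 τ hτ (hτ2.trans_le (min_le_left _ _))
      obtain ⟨α, hα1, hα2, hα3⟩ := h3 x hx
      have hex : ∃ i, 1 - ε1 ≤ α i := by
        by_contra hcon
        push Not at hcon
        have h4 : ∀ i ∈ (Finset.univ : Finset (Fin m)), 1 / (m : ℝ) < 1 - α i := by
          intro i _
          have := hcon i
          linarith
        have hne' : (Finset.univ : Finset (Fin m)).Nonempty := ⟨⟨0, by omega⟩, Finset.mem_univ _⟩
        have h5 := Finset.sum_lt_sum_of_nonempty hne' h4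
        rw [Finset.sum_const, Finset.card_univ, Fintype.card_fin, nsmul_eq_mul,
          mul_one_div_cancel hmR.ne'] at h5
        linarith
      obtain ⟨i, hi⟩ := hex
      have hX : X0 ≤ 1 / τ := by
        have h4 : τ ≤ 1 / max X0 1 := (hτ2.trans_le (min_le_right _ _)).le
        rw [le_div_iff₀ hmax] at h4
        rw [le_div_iff₀ hτ]
        have h5 : X0 * τ ≤ max X0 1 * τ := by
          gcongr; exact le_max_left _ _
        linarith
      have hXY : 1 / τ ≤ Y := by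
        rw [div_le_iff₀ hY0] at hτ1
        rw [div_le_iff₀ hτ]; linarith
      apply hxB i (1 / τ) hX hXY
      have he : H * (1 / τ) = H / τ := by ring
      have he3 : ε = 3 * ε1 := by rw [hε1]; ring
      rw [he, he3]
      refine good_of_lower hε10 hne hi fun c r hr => ?_
      have h4 := hα3 i c r hr
      unfold vis
      exact h4)
  refine ⟨F, ?_, hF2⟩
  rw [one_div, Real.inv_rpow hY0.le, Real.rpow_neg hY0.le, inv_inv] at hF1
  exact hF1

/-- packing dimension zero: for every `s > 0` the set is a countable union of sets of upper box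
dimension at most `s` -/
def PackingZero (E : Set T) : Prop :=
  ∀ s : ℝ, 0 < s → ∃ A : ℕ → Set T, E ⊆ ⋃ n, A n ∧ ∀ n, ∃ C : ℝ, ∀ ρ : ℝ, 0 < ρ → ρ ≤ 1 →
    ∃ F : Finset T, (F.card : ℝ) ≤ C * ρ ^ (-s) ∧ A n ⊆ ⋃ t ∈ F, Metric.closedBall t ρ

/-- **Full equidistribution outside a set of packing dimension zero.** -/
theorem full {p q : ℕ} (hp : 2 ≤ p) (hq : 2 ≤ q) (hpq : Nat.Coprime p q) :
    ∃ E : Set T, PackingZero E ∧ ∀ x : T, x ∉ E → ∀ ε : ℝ, 0 < ε → ∃ H0 : ℕ, ∀ H : ℕ, H0 ≤ H →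
      ∀ X0 : ℝ, ∃ X : ℝ, X0 ≤ X ∧ Good p q ε X (H * X) x := by
  classical
  refine ⟨{x | ¬ ∀ ε : ℝ, 0 < ε → ∃ H0 : ℕ, ∀ H : ℕ, H0 ≤ H →
      ∀ X0 : ℝ, ∃ X : ℝ, X0 ≤ X ∧ Good p q ε X (H * X) x}, ?_, fun x hx => not_not.1 hx⟩
  intro s hs
  have h := fun n : ℕ => few hp hq hpq (ε := 1 / ((n : ℝ) + 1)) (s := s) (by positivity) hs
  choose H0 hH0 h using h
  set A' : ℕ × ℕ × ℕ → Set T := fun w => if H0 w.1 ≤ (w.2.1 : ℝ) then
    {x : T | ∀ X : ℝ, (w.2.2 : ℝ) ≤ X → ¬ Good p q (1 / ((w.1 : ℝ) + 1)) X (w.2.1 * X) x}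
    else ∅ with hA'
  obtain ⟨e, he⟩ := exists_surjective_nat (ℕ × ℕ × ℕ)
  refine ⟨fun n => A' (e n), ?_, fun n => ?_⟩
  · intro x hx
    simp only [mem_ofPred_eq] at hx
    push Not at hx
    obtain ⟨ε, hε, hx⟩ := hx
    obtain ⟨n, hn⟩ := exists_nat_one_div_lt hε
    obtain ⟨H1, hH1⟩ := exists_nat_ge (H0 n)
    obtain ⟨H, hH, X0, hX0⟩ := hx H1
    obtain ⟨X1, hX1⟩ := exists_nat_ge X0
    obtain ⟨k, hk⟩ := he (n, H, X1)
    rw [mem_iUnion]
    refine ⟨k, ?_⟩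
    simp only [hk, hA']
    rw [if_pos (hH1.trans (by exact_mod_cast hH))]
    intro X hX hg
    apply hX0 X (hX1.trans hX)
    refine ⟨hg.1, fun c r hr0 hr => (hg.2 c r hr0 hr).trans ?_⟩
    gcongr
  · obtain ⟨k, H, X0⟩ : ℕ × ℕ × ℕ := e n
    show ∃ C : ℝ, ∀ ρ : ℝ, 0 < ρ → ρ ≤ 1 → ∃ F : Finset T, (F.card : ℝ) ≤ C * ρ ^ (-s) ∧
      A' (e n) ⊆ ⋃ t ∈ F, Metric.closedBall t ρ
    generalize e n = w
    by_cases hw : H0 w.1 ≤ (w.2.1 : ℝ)
    · obtain ⟨C, hC, hcov⟩ := h w.1 (w.2.1 : ℝ) hw (w.2.2 : ℝ)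
      refine ⟨C, fun ρ hρ hρ1 => ?_⟩
      obtain ⟨F, hF1, hF2⟩ := hcov (1 / ρ) (by rw [le_div_iff₀ hρ]; linarith)
      refine ⟨F, ?_, ?_⟩
      · rw [one_div, Real.inv_rpow hρ.le, ← Real.rpow_neg hρ.le] at hF1
        exact hF1
      · have e1 : 1 / (1 / ρ) = ρ := by rw [one_div_one_div]
        rw [e1] at hF2
        refine Subset.trans ?_ hF2
        intro x hx
        simp only [hA'] at hx
        rw [if_pos hw] at hx
        intro X hX _
        exact hx X hX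
    · refine ⟨0, fun ρ hρ hρ1 => ⟨∅, by simp, ?_⟩⟩
      intro x hx
      simp only [hA'] at hx
      rw [if_neg hw] at hx
      exact absurd hx (notMem_empty x)

/-- **Rational points.** -/
theorem rational {p q : ℕ} (hp : 2 ≤ p) (hq : 2 ≤ q) (hpq : Nat.Coprime p q) {ε s : ℝ}
    (hε : 0 < ε) (hs : 0 < s) : ∃ H0 : ℝ, 1 < H0 ∧ ∀ H : ℝ, H0 ≤ H → ∀ X0 : ℝ, ∃ C : ℝ, ∀ b : ℕ,
      1 ≤ b → ∃ A : Finset ℕ, (A.card : ℝ) ≤ C * (b : ℝ) ^ s ∧ ∀ a : ℕ, a < b → a ∉ A →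
        ∃ X : ℝ, X0 ≤ X ∧ X ≤ b ∧ Good p q ε X (H * X) (((a : ℝ) / b : ℝ) : T) := by
  classical
  obtain ⟨H0, hH0, h⟩ := few hp hq hpq hε hs
  refine ⟨H0, hH0, fun H hH X0 => ?_⟩
  obtain ⟨C, hC, h2⟩ := h H hH X0
  refine ⟨5 * C, fun b hb => ?_⟩
  have hbR : (1 : ℝ) ≤ b := by exact_mod_cast hb
  have hb0 : (0 : ℝ) < b := by linarith
  obtain ⟨F, hF1, hF2⟩ := h2 b hbR
  set A : Finset ℕ := (Finset.range b).filter fun a =>
    ∀ X : ℝ, X0 ≤ X → X ≤ b → ¬ Good p q ε X (H * X) (((a : ℝ) / b : ℝ) : T) with hA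
  refine ⟨A, ?_, fun a hab haA => ?_⟩
  · have hex : ∀ a ∈ A, ∃ t ∈ F, ((((a : ℝ) / b : ℝ) : T)) ∈ Metric.closedBall t (1 / b) := by
      intro a ha
      have h3 : ((((a : ℝ) / b : ℝ) : T)) ∈ {x : T | ∀ X : ℝ, X0 ≤ X → X ≤ b →
          ¬ Good p q ε X (H * X) x} := by
        have := (Finset.mem_filter.1 ha).2
        exact this
      have h4 := hF2 h3
      rw [mem_iUnion₂] at h4
      obtain ⟨t, ht, h5⟩ := h4
      exact ⟨t, ht, h5⟩
    choose! f hf using hex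
    have hcard : A.card ≤ 5 * F.card := by
      refine Finset.card_le_mul_card_image_of_maps_to (f := f) (fun a ha => (hf a ha).1) 5 ?_
      intro t ht
      rcases Finset.eq_empty_or_nonempty (A.filter fun a => f a = t) with h0 | ⟨a0, ha0⟩
      · rw [h0]; simp
      · have ha0' := Finset.mem_filter.1 ha0
        have hsub : (A.filter fun a => f a = t) ⊆ (Finset.Icc (-2 : ℤ) 2).image
            fun j => (((a0 : ℤ) + j) % b).toNat := by
          intro a ha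
          have ha' := Finset.mem_filter.1 ha
          have h3 := (hf a ha'.1).2
          have h4 := (hf a0 ha0'.1).2
          rw [ha'.2, Metric.mem_closedBall, dist_eq_norm] at h3
          rw [ha0'.2, Metric.mem_closedBall, dist_eq_norm] at h4
          have h5 : ‖((((a : ℝ) / b : ℝ) : T)) - ((((a0 : ℝ) / b : ℝ) : T))‖ ≤ 2 / b := by
            have e : ((((a : ℝ) / b : ℝ) : T)) - ((((a0 : ℝ) / b : ℝ) : T)) =
              (((((a : ℝ) / b : ℝ) : T)) - t) - (((((a0 : ℝ) / b : ℝ) : T)) - t) := by abel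
            rw [e]
            refine (norm_sub_le _ _).trans ((add_le_add h3 h4).trans (le_of_eq ?_))
            ring
          rw [← AddCircle.coe_sub, UnitAddCircle.norm_eq] at h5
          set k : ℤ := round ((a : ℝ) / b - (a0 : ℝ) / b) with hk
          have h6 : |(a : ℝ) - a0 - k * b| ≤ 2 := by
            have e : (a : ℝ) - a0 - k * b = ((a : ℝ) / b - (a0 : ℝ) / b - k) * b := by field_simp
            rw [e, abs_mul, abs_of_pos hb0]
            rwa [le_div_iff₀ hb0] at h5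
          have h7 : |(a : ℤ) - a0 - k * b| ≤ 2 := by exact_mod_cast h6
          rw [Finset.mem_image]
          refine ⟨(a : ℤ) - a0 - k * b, ?_, ?_⟩
          · rw [Finset.mem_Icc]; exact abs_le.1 h7
          · have hab : a < b := Finset.mem_range.1 (Finset.mem_filter.1 ha'.1).1
            have e : (a0 : ℤ) + ((a : ℤ) - a0 - k * b) = a + b * (-k) := by ring
            rw [e, Int.add_mul_emod_self_left, Int.emod_eq_of_lt (by positivity)
              (by exact_mod_cast hab)]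
            simp
        refine (Finset.card_le_card hsub).trans (Finset.card_image_le.trans ?_)
        simp
    calc (A.card : ℝ) ≤ 5 * F.card := by exact_mod_cast hcard
      _ ≤ 5 * (C * (b : ℝ) ^ s) := by gcongr
      _ = 5 * C * (b : ℝ) ^ s := by ring
  · by_contra hcon
    push Not at hcon
    apply haA
    rw [hA, Finset.mem_filter]
    exact ⟨Finset.mem_range.2 hab, hcon⟩

end Pool.Agent.W764.HL
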