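import Pool.Agent.W764.HL.Pair

/-!
Points which are generic for a measure along windows.
-/

set_option autoImplicit false

open MeasureTheory Filter Topology Set
open scoped ENNReal

namespace Pool.Agent.W764.HL

open Pool.Agent.W764.FB Pool.Agent.W764.SH

/-- the point `x` is generic for `μ` along the windows -/
def WGen (p q : ℕ) (μ : Measure T) (x : T) : Prop :=
  ∀ f : T → ℝ, Continuous f → ∀ ε : ℝ, 0 < ε → ∃ H0 : ℕ, ∀ H : ℕ, H0 ≤ H → ∃ X0 : ℝ, ∀ X : ℝ,
    X0 ≤ X → |∑ n ∈ win p q X (H * X), f (n • x) - (∫ y, f y ∂μ) * (win p q X (H * X)).card| ≤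
      ε * (win p q X (H * X)).card

/-- lower bounds for arcs from genericity -/
lemma arc_lower {p q : ℕ} {μ : Measure T} [IsProbabilityMeasure μ] {x : T}
    (hg : WGen p q μ x)
    (hx : ∀ ε : ℝ, 0 < ε → ∃ H0 : ℕ, ∀ H : ℕ, H0 ≤ H →
      ∀ X0 : ℝ, ∃ X : ℝ, X0 ≤ X ∧ (win p q X (H * X)).Nonempty ∧
        ∀ c : T, ∀ r : ℝ, 0 ≤ r → r ≤ 1 / 2 →
          (r - ε) * (win p q X (H * X)).card ≤ (vis p q X (H * X) x c r : ℝ))
    (c : T) {r : ℝ} (hr0 : 0 ≤ r) (hr : r ≤ 1 / 2) : r ≤ μ.real (Metric.closedBall c r) := by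
  classical
  refine le_of_forall_pos_le_add fun e he => ?_
  rcases le_or_gt r (e / 2) with h0 | h0
  · have : 0 ≤ μ.real (Metric.closedBall c r) := measureReal_nonneg
    linarith
  set r' : ℝ := r - e / 2 with hr'
  have hr'0 : 0 ≤ r' := by linarith
  set f : T → ℝ := fun y => max 0 (min 1 (1 - (‖y - c‖ - r') / (e / 2))) with hf
  have hfc : Continuous f := by
    rw [hf]
    exact continuous_const.max (continuous_const.min (continuous_const.sub
      (((continuous_id.sub continuous_const).norm.sub continuous_const).div_const _)))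
  have hf0 : ∀ y, 0 ≤ f y := fun y => le_max_left _ _
  have hf1 : ∀ y, f y ≤ 1 := fun y => max_le zero_le_one (min_le_left _ _)
  have hfin : ∀ y, ‖y - c‖ ≤ r' → f y = 1 := by
    intro y hy
    simp only [hf]
    have h1 : (‖y - c‖ - r') / (e / 2) ≤ 0 := div_nonpos_of_nonpos_of_nonneg (by linarith) (by positivity)
    rw [min_eq_left (by linarith), max_eq_right zero_le_one]
  have hfout : ∀ y, y ∉ Metric.closedBall c r → f y = 0 := by
    intro y hy
    rw [Metric.mem_closedBall, dist_eq_norm, not_le] at hy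
    simp only [hf]
    have h1 : 1 ≤ (‖y - c‖ - r') / (e / 2) := by
      rw [le_div_iff₀ (by positivity)]; linarith
    have h2 : min 1 (1 - (‖y - c‖ - r') / (e / 2)) ≤ 0 := (min_le_right _ _).trans (by linarith)
    exact max_eq_left h2
  have hint : ∫ y, f y ∂μ ≤ μ.real (Metric.closedBall c r) := by
    have hm : MeasurableSet (Metric.closedBall c r) := measurableSet_closedBall
    calc ∫ y, f y ∂μ ≤ ∫ y, (Metric.closedBall c r).indicator (fun _ => (1 : ℝ)) y ∂μ := by
          refine integral_mono (Pool.Agent.H847R3.XpXq.integrable_of_cont hfc μ)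
            ((integrable_const 1).indicator hm) fun y => ?_
          by_cases hy : y ∈ Metric.closedBall c r
          · rw [indicator_of_mem hy]; exact hf1 y
          · rw [indicator_of_notMem hy, hfout y hy]
      _ = μ.real (Metric.closedBall c r) := by
          rw [integral_indicator hm, setIntegral_const, smul_eq_mul, mul_one]
  obtain ⟨H1, hH1⟩ := hg f hfc (e / 4) (by positivity)
  obtain ⟨H2, hH2⟩ := hx (e / 4) (by positivity)
  obtain ⟨H3, hH31, hH32⟩ : ∃ H3, H1 ≤ H3 ∧ H2 ≤ H3 :=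
    ⟨max H1 H2, le_max_left _ _, le_max_right _ _⟩
  obtain ⟨X0, hX0⟩ := hH1 H3 hH31
  obtain ⟨X, hX, hne, hv⟩ := hH2 H3 hH32 X0
  have h1 := hX0 X hX
  have h2 := hv c r' hr'0 (by linarith)
  set W := win p q X (H3 * X) with hW
  have hWR : (0 : ℝ) < W.card := by exact_mod_cast hne.card_pos
  have h3 : (vis p q X (H3 * X) x c r' : ℝ) ≤ ∑ n ∈ W, f (n • x) := by
    unfold vis
    rw [Finset.card_filter]
    push_cast
    refine Finset.sum_le_sum fun n _ => ?_
    split_ifs with hn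
    · rw [hfin _ hn]
    · exact hf0 _
  rw [abs_le] at h1
  have h4 : (r' - e / 4) * W.card ≤ (∫ y, f y ∂μ + e / 4) * W.card := by linarith [h1.2]
  have h5 := le_of_mul_le_mul_right h4 hWR
  linarith

/-- lower bounds for arcs imply lower bounds for all sets -/
lemma half_le {μ : Measure T} [IsProbabilityMeasure μ]
    (h : ∀ c : T, ∀ r : ℝ, 0 ≤ r → r ≤ 1 / 2 → r ≤ μ.real (Metric.closedBall c r)) (s : Set T) :
    (2 : ℝ≥0∞)⁻¹ * (volume : Measure T) s ≤ μ s := by
  set v := IsUnifLocDoublingMeasure.vitaliFamily (volume : Measure T) 1 with hv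
  have h1 := v.measure_le_of_frequently_le (ρ := (2 : ℝ≥0∞)⁻¹ • (volume : Measure T)) μ
    Measure.smul_absolutelyContinuous s ?_
  · rwa [Measure.smul_apply, smul_eq_mul] at h1
  · intro x _
    have h2 : Tendsto (fun δ : ℝ => Metric.closedBall x δ) (𝓝[>] 0) (v.filterAt x) :=
      IsUnifLocDoublingMeasure.tendsto_closedBall_filterAt (volume : Measure T) (fun _ => x)
        (fun δ => δ) tendsto_id (by
          filter_upwards [self_mem_nhdsWithin] with δ hδ
          rw [one_mul]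
          exact Metric.mem_closedBall_self (le_of_lt hδ))
    refine h2.frequently (Eventually.frequently ?_)
    have h3 : ∀ᶠ δ : ℝ in 𝓝[>] 0, δ < 1 / 2 :=
      nhdsWithin_le_nhds (gt_mem_nhds (by norm_num))
    filter_upwards [self_mem_nhdsWithin, h3] with δ hδ hδ2
    have hδ0 : 0 < δ := hδ
    rw [Measure.smul_apply, smul_eq_mul, AddCircle.volume_closedBall, min_eq_right (by linarith)]
    have h4 := h x δ hδ0.le hδ2.le
    have h5 : (2 : ℝ≥0∞)⁻¹ * ENNReal.ofReal (2 * δ) = ENNReal.ofReal δ := by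
      rw [ENNReal.ofReal_mul (by norm_num), ← mul_assoc]
      have : ENNReal.ofReal 2 = 2 := by simp
      rw [this, ENNReal.inv_mul_cancel (by norm_num) (by norm_num), one_mul]
    rw [h5]
    exact (ENNReal.ofReal_le_iff_le_toReal (measure_ne_top _ _)).2 h4

/-- ergodicity for the joint action -/
def JErg (p q : ℕ) (μ : Measure T) : Prop :=
  ∀ E : Set T, MeasurableSet E → (fun x : T => p • x) ⁻¹' E = E → (fun x : T => q • x) ⁻¹' E = E →
    μ E = 0 ∨ μ E = 1

/-- a strictly invariant version of an almost invariant set -/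
lemma strict_inv {p q : ℕ} {μ : Measure T}
    (hip : MeasurePreserving (fun x : T => p • x) μ μ)
    (hiq : MeasurePreserving (fun x : T => q • x) μ μ) {D : Set T} (hD : MeasurableSet D)
    (hDp : ∀ᵐ x ∂μ, (p • x ∈ D ↔ x ∈ D)) (hDq : ∀ᵐ x ∂μ, (q • x ∈ D ↔ x ∈ D)) :
    ∃ D' : Set T, MeasurableSet D' ∧ (fun x : T => p • x) ⁻¹' D' = D' ∧
      (fun x : T => q • x) ⁻¹' D' = D' ∧ ∀ᵐ x ∂μ, (x ∈ D' ↔ x ∈ D) := by
  set D' : Set T := ⋂ N : ℕ, ⋃ a : ℕ, ⋃ b : ℕ,
    (fun x : T => (p ^ (a + N) * q ^ (b + N)) • x) ⁻¹' D with hD'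
  have hmem : ∀ x, x ∈ D' ↔ ∀ N : ℕ, ∃ a b : ℕ, (p ^ (a + N) * q ^ (b + N)) • x ∈ D := by
    intro x
    simp only [hD', mem_iInter, mem_iUnion, mem_preimage]
  refine ⟨D', ?_, ?_, ?_, ?_⟩
  · refine MeasurableSet.iInter fun N => MeasurableSet.iUnion fun a => MeasurableSet.iUnion
      fun b => (continuous_nsmul _).measurable hD
  · ext x
    rw [mem_preimage, hmem, hmem]
    constructor
    · intro h N
      obtain ⟨a, b, h1⟩ := h N
      refine ⟨a + 1, b, ?_⟩
      rw [← mul_smul] at h1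
      have e : p ^ (a + 1 + N) * q ^ (b + N) = p ^ (a + N) * q ^ (b + N) * p := by ring
      rwa [e]
    · intro h N
      obtain ⟨a, b, h1⟩ := h (N + 1)
      refine ⟨a, b + 1, ?_⟩
      rw [← mul_smul]
      have e : p ^ (a + N) * q ^ (b + 1 + N) * p = p ^ (a + (N + 1)) * q ^ (b + (N + 1)) := by ring
      rwa [e]
  · ext x
    rw [mem_preimage, hmem, hmem]
    constructor
    · intro h N
      obtain ⟨a, b, h1⟩ := h N
      refine ⟨a, b + 1, ?_⟩
      rw [← mul_smul] at h1
      have e : p ^ (a + N) * q ^ (b + 1 + N) = p ^ (a + N) * q ^ (b + N) * q := by ring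
      rwa [e]
    · intro h N
      obtain ⟨a, b, h1⟩ := h (N + 1)
      refine ⟨a + 1, b, ?_⟩
      rw [← mul_smul]
      have e : p ^ (a + 1 + N) * q ^ (b + N) * q = p ^ (a + (N + 1)) * q ^ (b + (N + 1)) := by ring
      rwa [e]
  · have hP : ∀ {n : ℕ}, MeasurePreserving (fun x : T => n • x) μ μ →
        (∀ᵐ x ∂μ, (n • x ∈ D ↔ x ∈ D)) → ∀ᵐ x ∂μ, ∀ j : ℕ, ((n ^ j) • x ∈ D ↔ x ∈ D) := by
      intro n hi hd
      filter_upwards [ae_pow hi hd] with x hx j
      induction j with
      | zero => simp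
      | succ j ih =>
        rw [pow_succ', mul_smul]
        exact (hx j).trans ih
    have h1 := hP hip hDp
    have h2 := hP hiq hDq
    have h3 := ae_pow hiq h1
    filter_upwards [h2, h3] with x hx2 hx3
    have hall : ∀ a b : ℕ, ((p ^ a * q ^ b) • x ∈ D ↔ x ∈ D) := by
      intro a b
      rw [mul_smul]
      exact (hx3 b a).trans (hx2 b)
    rw [hmem]
    simp_rw [hall]
    exact ⟨fun h => by obtain ⟨_, _, h⟩ := h 0; exact h, fun h N => ⟨0, 0, h⟩⟩

/-- an ergodic invariant measure which dominates half of Lebesgue measure is Lebesgue measure -/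
lemma erg_half {p q : ℕ} (hp : 2 ≤ p) (hq : 2 ≤ q) (hpq : Nat.Coprime p q) (μ : Measure T)
    [IsProbabilityMeasure μ] (hip : MeasurePreserving (fun x : T => p • x) μ μ)
    (hiq : MeasurePreserving (fun x : T => q • x) μ μ) (herg : JErg p q μ)
    (h : ∀ s : Set T, (2 : ℝ≥0∞)⁻¹ * (volume : Measure T) s ≤ μ s) : μ = volume := by
  obtain ⟨D, hDm, hDp, hDq, hD, B, hBm, hB0, hB⟩ := decomp hp hq hpq μ hip hiq
  obtain ⟨D', hD'm, hD'p, hD'q, hD'⟩ := strict_inv hip hiq hDm hDp hDq
  have heq : μ D' = μ D := measure_congr (eventuallyEq_set.2 hD')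
  rcases herg D' hD'm hD'p hD'q with h0 | h1
  · exfalso
    rw [heq] at h0
    have hBc : μ Bᶜ = 0 := by
      refine measure_mono_null (t := D ∪ (Dᶜ \ B)) (fun x hx => ?_) (measure_union_null h0 hB0)
      by_cases hxD : x ∈ D
      · exact Or.inl hxD
      · exact Or.inr ⟨hxD, hx⟩
    have hvol : (volume : Measure T) Bᶜ = 0 := by
      have h2 := h Bᶜ
      rw [hBc] at h2
      have h3 := le_antisymm h2 zero_le
      rcases mul_eq_zero.1 h3 with h4 | h4
      · exact absurd h4 (by simp)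
      · exact h4
    have hmp : MeasurePreserving (fun x : T => x + hh p 1 1) (volume : Measure T) volume :=
      measurePreserving_add_right _ _
    have hae1 : ∀ᵐ x ∂(volume : Measure T), x ∈ B := by
      rw [ae_iff]; exact hvol
    have hae2 : ∀ᵐ x ∂(volume : Measure T), x + hh p 1 1 ∈ B := hmp.quasiMeasurePreserving.ae hae1
    obtain ⟨x, hx1, hx2⟩ := (hae1.and hae2).exists
    exact hB x hx1 1 le_rfl (by omega) hx2
  · rw [heq] at h1
    have h2 : μ.restrict D = μ := by
      rw [Measure.restrict_eq_self_of_ae_mem]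
      rw [ae_iff]
      have : μ Dᶜ = 0 := (prob_compl_eq_zero_iff hDm).2 h1
      exact this
    rw [← h2, hD, h1, one_smul]

/-- a measure with a generic point is invariant -/
lemma wgen_inv {p q : ℕ} (hp : 2 ≤ p) (hq : 2 ≤ q) (hpq : Nat.Coprime p q) {μ : Measure T}
    [IsProbabilityMeasure μ] {x : T} (hx : WGen p q μ x) {s : ℕ} (hs : s = p ∨ s = q) :
    MeasurePreserving (fun y : T => s • y) μ μ := by
  classical
  have hirr := irr_of_coprime hp hq hpq
  have hs2 : 2 ≤ s := by rcases hs with rfl | rfl <;> assumption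
  have hc : Continuous fun y : T => s • y := continuous_nsmul s
  refine ⟨hc.measurable, ?_⟩
  have : IsProbabilityMeasure (Measure.map (fun y : T => s • y) μ) :=
    Measure.isProbabilityMeasure_map hc.measurable.aemeasurable
  -- functions bounded by one
  have key : ∀ g : T → ℝ, Continuous g → (∀ y, |g y| ≤ 1) →
      ∫ y, g (s • y) ∂μ = ∫ y, g y ∂μ := by
    intro g hg hg1
    have hsmall : ∀ ε : ℝ, 0 < ε → |∫ y, g (s • y) ∂μ - ∫ y, g y ∂μ| ≤ ε := by
      intro ε hε
      obtain ⟨H1, hH1⟩ := hx g hg (ε / 3) (by positivity)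
      obtain ⟨H2, hH2⟩ := hx (fun y => g (s • y)) (hg.comp hc) (ε / 3) (by positivity)
      obtain ⟨H3, hH31, hH3⟩ := near_inv hp hq hirr hs2 (η := ε / 6) (by positivity)
      obtain ⟨H4, hH4⟩ := exists_nat_ge H3
      obtain ⟨H, ha, hb, hcc⟩ : ∃ H, H1 ≤ H ∧ H2 ≤ H ∧ H4 ≤ H :=
        ⟨max H1 (max H2 H4), le_max_left _ _, (le_max_left _ _).trans (le_max_right _ _),
          (le_max_right _ _).trans (le_max_right _ _)⟩
      have hHR : H3 ≤ (H : ℝ) := hH4.trans (by exact_mod_cast hcc)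
      obtain ⟨X1, hX1⟩ := hH1 H ha
      obtain ⟨X2, hX2⟩ := hH2 H hb
      obtain ⟨δ, hδ, hδ2⟩ := hH3 H hHR
      obtain ⟨δ', hδ', hδ2'⟩ := card_large hp hq hirr (hH31.trans_le hHR) 1
      set X : ℝ := max (max X1 X2) (max (2 / δ) (2 / δ')) with hX
      have hXa : X1 ≤ X := (le_max_left _ _).trans (le_max_left _ _)
      have hXb : X2 ≤ X := (le_max_right _ _).trans (le_max_left _ _)
      have hXc : 2 / δ ≤ X := (le_max_left _ _).trans (le_max_right _ _)
      have hXd : 2 / δ' ≤ X := (le_max_right _ _).trans (le_max_right _ _)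
      have hX0 : 0 < X := lt_of_lt_of_le (by positivity) hXc
      have hτ : ∀ d : ℝ, 0 < d → 2 / d ≤ X → 1 / X < d := by
        intro d hd h
        rw [div_lt_iff₀ hX0]
        rw [div_le_iff₀ hd] at h
        linarith
      have e1 : (1 : ℝ) / (1 / X) = X := one_div_one_div X
      have e2 : (H : ℝ) / (1 / X) = H * X := by rw [div_div_eq_mul_div, div_one]
      have h1 := hX1 X hXa
      have h2 := hX2 X hXb
      have h3 := hδ2 (1 / X) (by positivity) (hτ δ hδ hXc)
      have h4 := hδ2' (1 / X) (by positivity) (hτ δ' hδ' hXd)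
      rw [e1, e2] at h3 h4
      set W := win p q X (H * X) with hW
      have hWR : (0 : ℝ) < W.card := by linarith
      have h5 := sum_dilate (s := s) (by omega) W (fun n => g (n • x)) fun n => hg1 _
      have h6 : (W.filter fun n => s * n ∉ W).card ≤
          (W.filter fun n => H * X ≤ ((s * n : ℕ) : ℝ)).card := by
        refine Finset.card_le_card fun n hn => ?_
        rw [Finset.mem_filter] at hn ⊢
        refine ⟨hn.1, ?_⟩
        by_contra hlt
        push Not at hlt
        apply hn.2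
        have hnW := hn.1
        rw [hW, mem_win] at hnW ⊢
        obtain ⟨⟨a, b, rfl⟩, h4, h5⟩ := hnW
        refine ⟨?_, ?_, hlt⟩
        · rcases hs with rfl | rfl
          · exact ⟨a + 1, b, by ring⟩
          · exact ⟨a, b + 1, by ring⟩
        · refine h4.trans ?_
          exact_mod_cast Nat.le_mul_of_pos_left _ (by omega)
      have h7 : ((W.filter fun n => s * n ∉ W).card : ℝ) ≤ ε / 6 * W.card := by
        have h6' : ((W.filter fun n => s * n ∉ W).card : ℝ) ≤
            ((W.filter fun n => H * X ≤ ((s * n : ℕ) : ℝ)).card : ℝ) := by exact_mod_cast h6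
        refine le_trans h6' (le_trans (le_of_eq ?_) h3)
        congr 2
      have h8 : ∀ n : ℕ, g (s • n • x) = g ((s * n) • x) := fun n => by rw [mul_smul]
      simp_rw [h8] at h2
      rw [abs_le] at h1 h2 h5 ⊢
      constructor
      · have h9 : (∫ y, g y ∂μ - ∫ y, g (s • y) ∂μ) * W.card ≤ ε * W.card := by
          nlinarith [h1.1, h1.2, h2.1, h2.2, h5.1, h5.2]
        have := le_of_mul_le_mul_right h9 hWR
        linarith
      · have h9 : (∫ y, g (s • y) ∂μ - ∫ y, g y ∂μ) * W.card ≤ ε * W.card := by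
          nlinarith [h1.1, h1.2, h2.1, h2.2, h5.1, h5.2]
        exact le_of_mul_le_mul_right h9 hWR
    have h0 : |∫ y, g (s • y) ∂μ - ∫ y, g y ∂μ| ≤ 0 :=
      le_of_forall_pos_le_add fun e he => by rw [zero_add]; exact hsmall e he
    exact sub_eq_zero.1 (abs_eq_zero.1 (le_antisymm h0 (abs_nonneg _)))
  refine ext_of_forall_integral_eq_of_IsFiniteMeasure fun f => ?_
  rw [integral_map hc.measurable.aemeasurable f.continuous.aestronglyMeasurable]
  set a : ℝ := (‖f‖ + 1)⁻¹ with ha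
  have ha0 : 0 < a := by positivity
  have h1 := key (fun y => a * f y) (continuous_const.mul f.continuous) (fun z => by
    rw [abs_mul, abs_of_pos ha0]
    have h2 : |f z| ≤ ‖f‖ := f.norm_coe_le_norm z
    rw [ha, inv_mul_le_iff₀ (by positivity)]
    linarith)
  rw [integral_const_mul, integral_const_mul] at h1
  exact mul_left_cancel₀ ha0.ne' h1

/-- **Generic points.** -/
theorem generic {p q : ℕ} (hp : 2 ≤ p) (hq : 2 ≤ q) (hpq : Nat.Coprime p q) :
    ∃ E : Set T, E.Countable ∧ (∀ ε : ℝ, 0 < ε → ∃ H0 : ℕ, ∀ H : ℕ, H0 ≤ H → ∀ x : T, x ∉ E →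
      ∀ X0 : ℝ, ∃ X : ℝ, X0 ≤ X ∧ (win p q X (H * X)).Nonempty ∧
        ∀ c : T, ∀ r : ℝ, 0 ≤ r → r ≤ 1 / 2 →
          (r - ε) * (win p q X (H * X)).card ≤ (vis p q X (H * X) x c r : ℝ)) ∧
      ∀ x : T, x ∉ E → ∀ μ : Measure T, IsProbabilityMeasure μ → WGen p q μ x →
        (∀ s : Set T, (2 : ℝ≥0∞)⁻¹ * (volume : Measure T) s ≤ μ s) ∧
        (JErg p q μ → μ = volume) := by
  obtain ⟨E, hE, h⟩ := half hp hq hpq
  refine ⟨E, hE, h, fun x hxE μ hμ hx => ?_⟩
  have h1 : ∀ s : Set T, (2 : ℝ≥0∞)⁻¹ * (volume : Measure T) s ≤ μ s :=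
    half_le (fun c r hr0 hr => arc_lower hx (fun ε hε => by
      obtain ⟨H0, hH0⟩ := h ε hε
      exact ⟨H0, fun H hH X0 => hH0 H hH x hxE X0⟩) c hr0 hr)
  exact ⟨h1, fun herg => erg_half hp hq hpq μ (wgen_inv hp hq hpq hx (Or.inl rfl))
    (wgen_inv hp hq hpq hx (Or.inr rfl)) herg h1⟩

end Pool.Agent.W764.HL
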