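import Pool.Agent.W764.HL.Gen
import Pool.Agent.W764.HL.Full

/-!
The window-generic points of a measure different from Lebesgue measure form a set of packing
dimension zero.
-/

set_option autoImplicit false

open MeasureTheory Filter Topology Set
open scoped ENNReal

namespace Pool.Agent.W764.HL

open Pool.Agent.W764.FB Pool.Agent.W764.SH

/-- lower bounds for arcs from genericity and full equidistribution -/
lemma arc_lower2 {p q : ℕ} {μ : Measure T} [IsProbabilityMeasure μ] {x : T}
    (hg : WGen p q μ x)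
    (hx : ∀ ε : ℝ, 0 < ε → ∃ H0 : ℕ, ∀ H : ℕ, H0 ≤ H →
      ∀ X0 : ℝ, ∃ X : ℝ, X0 ≤ X ∧ Good p q ε X (H * X) x)
    (c : T) {r : ℝ} (hr : r ≤ 1 / 2) : 2 * r ≤ μ.real (Metric.closedBall c r) := by
  classical
  refine le_of_forall_pos_le_add fun e he => ?_
  rcases le_or_gt r (e / 4) with h0 | h0
  · have : 0 ≤ μ.real (Metric.closedBall c r) := measureReal_nonneg
    linarith
  set r' : ℝ := r - e / 4 with hr'
  have hr'0 : 0 ≤ r' := by linarith
  set f : T → ℝ := fun y => max 0 (min 1 (1 - (‖y - c‖ - r') / (e / 4))) with hf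
  have hfc : Continuous f := by
    rw [hf]
    exact continuous_const.max (continuous_const.min (continuous_const.sub
      (((continuous_id.sub continuous_const).norm.sub continuous_const).div_const _)))
  have hf0 : ∀ y, 0 ≤ f y := fun y => le_max_left _ _
  have hf1 : ∀ y, f y ≤ 1 := fun y => max_le zero_le_one (min_le_left _ _)
  have hfin : ∀ y, ‖y - c‖ ≤ r' → f y = 1 := by
    intro y hy
    simp only [hf]
    have h1 : (‖y - c‖ - r') / (e / 4) ≤ 0 :=
      div_nonpos_of_nonpos_of_nonneg (by linarith) (by positivity)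
    rw [min_eq_left (by linarith), max_eq_right zero_le_one]
  have hfout : ∀ y, y ∉ Metric.closedBall c r → f y = 0 := by
    intro y hy
    rw [Metric.mem_closedBall, dist_eq_norm, not_le] at hy
    simp only [hf]
    have h1 : 1 ≤ (‖y - c‖ - r') / (e / 4) := by
      rw [le_div_iff₀ (by positivity)]; linarith
    have h2 : min 1 (1 - (‖y - c‖ - r') / (e / 4)) ≤ 0 := (min_le_right _ _).trans (by linarith)
    exact max_eq_left h2
  have hint : ∫ y, f y ∂μ ≤ μ.real (Metric.closedBall c r) := by
    have hm : MeasurableSet (Metric.closedBall c r) := measurableSet_closedBall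
    calc ∫ y, f y ∂μ ≤ ∫ y, (Metric.closedBall c r).indicator (fun _ => (1 : ℝ)) y ∂μ := by
          refine integral_mono (Pool.Agent.H847R3.XpXq.integrable_of_cont hfc μ)
            ((integrable_const 1).indicator hm) fun y => ?_
          by_cases hy : y ∈ Metric.closedBall c r
          · rw [indicator_of_mem hy]; exact hf1 y
          · rw [indicator_of_notMem hy, hfout y hy]
      _ = μ.real (Metric.closedBall c r) := by
          rw [integral_indicator hm, setIntegral_const, smul_eq_mul, mul_one]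
  obtain ⟨H1, hH1⟩ := hg f hfc (e / 4) (by positivity)
  obtain ⟨H2, hH2⟩ := hx (e / 4) (by positivity)
  obtain ⟨H3, hH31, hH32⟩ : ∃ H3, H1 ≤ H3 ∧ H2 ≤ H3 :=
    ⟨max H1 H2, le_max_left _ _, le_max_right _ _⟩
  obtain ⟨X0, hX0⟩ := hH1 H3 hH31
  obtain ⟨X, hX, hne, hv⟩ := hH2 H3 hH32 X0
  have h1 := hX0 X hX
  have h2 := hv c r' hr'0 (by linarith)
  set W := win p q X (H3 * X) with hW
  have hWR : (0 : ℝ) < W.card := by exact_mod_cast hne.card_pos
  have h3 : (vis p q X (H3 * X) x c r' : ℝ) ≤ ∑ n ∈ W, f (n • x) := by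
    unfold vis
    rw [Finset.card_filter]
    push_cast
    refine Finset.sum_le_sum fun n _ => ?_
    split_ifs with hn
    · rw [hfin _ hn]
    · exact hf0 _
  rw [abs_le] at h1 h2
  have h4 : (2 * r' - e / 4) * W.card ≤ (∫ y, f y ∂μ + e / 4) * W.card := by
    linarith [h1.2, h2.1]
  have h5 := le_of_mul_le_mul_right h4 hWR
  linarith

/-- lower bounds for arcs imply that the measure is Lebesgue measure -/
lemma eq_vol_of_arcs {μ : Measure T} [IsProbabilityMeasure μ]
    (h : ∀ c : T, ∀ r : ℝ, r ≤ 1 / 2 → 2 * r ≤ μ.real (Metric.closedBall c r)) :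
    μ = volume := by
  set v := IsUnifLocDoublingMeasure.vitaliFamily (volume : Measure T) 1 with hv
  have hle : ∀ s : Set T, (volume : Measure T) s ≤ μ s := by
    intro s
    refine v.measure_le_of_frequently_le (ρ := (volume : Measure T)) μ
      Measure.AbsolutelyContinuous.rfl s ?_
    intro x _
    have h2 : Tendsto (fun δ : ℝ => Metric.closedBall x δ) (𝓝[>] 0) (v.filterAt x) :=
      IsUnifLocDoublingMeasure.tendsto_closedBall_filterAt (volume : Measure T) (fun _ => x)
        (fun δ => δ) tendsto_id (by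
          filter_upwards [self_mem_nhdsWithin] with δ hδ
          rw [one_mul]
          exact Metric.mem_closedBall_self (le_of_lt hδ))
    refine h2.frequently (Eventually.frequently ?_)
    have h3 : ∀ᶠ δ : ℝ in 𝓝[>] 0, δ < 1 / 2 :=
      nhdsWithin_le_nhds (gt_mem_nhds (by norm_num))
    filter_upwards [h3] with δ hδ2
    rw [AddCircle.volume_closedBall, min_eq_right (by linarith)]
    exact (ENNReal.ofReal_le_iff_le_toReal (measure_ne_top _ _)).2 (h x δ hδ2.le)
  ext s hs
  refine le_antisymm ?_ (hle s)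
  have h1 := hle sᶜ
  rw [prob_compl_eq_one_sub hs, prob_compl_eq_one_sub hs] at h1
  have h2 : μ s ≤ 1 := prob_le_one
  have h3 : (volume : Measure T) s ≤ 1 := prob_le_one
  calc μ s = 1 - (1 - μ s) := (ENNReal.sub_sub_cancel ENNReal.one_ne_top h2).symm
    _ ≤ 1 - (1 - (volume : Measure T) s) := tsub_le_tsub_left h1 1
    _ = (volume : Measure T) s := ENNReal.sub_sub_cancel ENNReal.one_ne_top h3

/-- **Generic points of measures different from Lebesgue measure.** -/
theorem generic_dim {p q : ℕ} (hp : 2 ≤ p) (hq : 2 ≤ q) (hpq : Nat.Coprime p q) :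
    ∃ E : Set T, PackingZero E ∧ ∀ μ : Measure T, IsProbabilityMeasure μ → μ ≠ volume →
      {x : T | WGen p q μ x} ⊆ E := by
  obtain ⟨E, hE, h⟩ := full hp hq hpq
  refine ⟨E, hE, fun μ hμ hne x hx => ?_⟩
  by_contra hxE
  apply hne
  exact eq_vol_of_arcs fun c r hr => arc_lower2 hx (h x hxE) c hr

end Pool.Agent.W764.HL
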