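import Pool.Agent.W764.HL.Gen
import Pool.Agent.W764.FB.Dev

/-!
Lebesgue almost every point is generic for Lebesgue measure along windows.
-/

set_option autoImplicit false

open MeasureTheory Filter Topology Set
open scoped ENNReal

namespace Pool.Agent.W764.HL

open Pool.Agent.W764.FB Pool.Agent.W764.SH

/-- the shell averages of the characters tend to zero Lebesgue almost everywhere -/
theorem conv_vol0 {p q : ℕ} (hp : 2 ≤ p) (hq : 2 ≤ q) (hpq : Nat.Coprime p q) {ϑ : ℝ}
    (hϑ : 1 < ϑ) : ∀ᵐ x ∂(volume : Measure T), ∀ m : ℤ, m ≠ 0 →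
      Tendsto (fun k : ℕ => avg p q ϑ (fun y : T => fourier m y) k x) atTop (𝓝 0) := by
  have hirr := irr_of_coprime hp hq hpq
  obtain ⟨c, M, hc, hgr⟩ := card_growth hp hq hϑ hirr
  obtain ⟨B, hB⟩ := pair_card hp hq hpq hϑ
  obtain ⟨k1, hk1⟩ := exists_nat_ge ((2 * |M| + 2) / c)
  have hcard : ∀ k, k1 ≤ k → c / 2 * k + 1 ≤ (shell p q ϑ k).card := by
    intro k hk
    have h1 := hgr k
    have h2 : (2 * |M| + 2) / c ≤ k := hk1.trans (by exact_mod_cast hk)
    rw [div_le_iff₀ hc] at h2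
    have h3 := le_abs_self M
    linarith
  rw [ae_all_iff]
  intro m
  rcases eq_or_ne m 0 with rfl | hm
  · exact Eventually.of_forall fun x h => absurd rfl h
  · set f : ℕ → T → ℝ≥0∞ := fun k x =>
      ENNReal.ofReal (‖avg p q ϑ (fun y : T => fourier m y) (k + (k1 + 1)) x‖ ^ 4) with hf
    have hcont : ∀ k, Continuous fun x => avg p q ϑ (fun y : T => fourier m y) k x := by
      intro k
      unfold avg
      simp_rw [Complex.real_smul]
      exact continuous_const.mul
        (continuous_finsetSum _ fun n _ => (fourier m).continuous.comp (continuous_nsmul _))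
    have hfm : ∀ k, Measurable (f k) := fun k =>
      ENNReal.measurable_ofReal.comp ((hcont _).norm.pow 4).measurable
    have hbound : ∀ k : ℕ, ∫⁻ x, f k x ≤
        ENNReal.ofReal (B * (4 / c ^ 2) * (1 / ((k + (k1 + 1) : ℕ) : ℝ) ^ 2)) := by
      intro k
      set j := k + (k1 + 1) with hj
      have hjc := hcard j (by omega)
      have hj0 : (0 : ℝ) < j := by exact_mod_cast (by omega : 0 < j)
      have hS0 : (0 : ℝ) < (shell p q ϑ j).card := by
        have : 0 ≤ c / 2 * j := by positivity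
        linarith
      have hint : Integrable (fun x : T => ‖avg p q ϑ (fun y : T => fourier m y) j x‖ ^ 4)
          (volume : Measure T) :=
        Pool.Agent.H847R3.XpXq.integrable_of_cont ((hcont j).norm.pow 4) _
      have h1 : ∫⁻ x, f k x = ENNReal.ofReal
          (∫ x : T, ‖avg p q ϑ (fun y : T => fourier m y) j x‖ ^ 4) := by
        rw [ofReal_integral_eq_lintegral_ofReal hint
          (Eventually.of_forall fun x => by positivity)]
      rw [h1]
      refine ENNReal.ofReal_le_ofReal ?_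
      have h2 : ∀ x : T, ‖avg p q ϑ (fun y : T => fourier m y) j x‖ ^ 4 =
          ((shell p q ϑ j).card : ℝ)⁻¹ ^ 4 * ‖∑ n ∈ shell p q ϑ j, fourier m (n • x)‖ ^ 4 := by
        intro x
        unfold avg
        rw [norm_smul, mul_pow, norm_inv, Real.norm_of_nonneg hS0.le]
      simp_rw [h2]
      rw [integral_const_mul]
      have h3 := fourth_gen (shell p q ϑ j) hm B (fun s => by
        have := hB j s
        convert this)
      calc ((shell p q ϑ j).card : ℝ)⁻¹ ^ 4 * ∫ x : T, ‖∑ n ∈ shell p q ϑ j, fourier m (n • x)‖ ^ 4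
          ≤ ((shell p q ϑ j).card : ℝ)⁻¹ ^ 4 * (B * ((shell p q ϑ j).card : ℝ) ^ 2) := by
            gcongr
        _ = B * (1 / ((shell p q ϑ j).card : ℝ) ^ 2) := by field_simp
        _ ≤ B * (1 / (c / 2 * j) ^ 2) := by
            gcongr
            linarith
        _ = B * (4 / c ^ 2) * (1 / (j : ℝ) ^ 2) := by field_simp; ring
    have hsum : ∫⁻ x, ∑' k, f k x ≠ ⊤ := by
      rw [lintegral_tsum fun k => (hfm k).aemeasurable]
      have hs : Summable fun k : ℕ => B * (4 / c ^ 2) * (1 / ((k + (k1 + 1) : ℕ) : ℝ) ^ 2) := by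
        have h1 : Summable fun k : ℕ => B * (4 / c ^ 2) * (1 / (k : ℝ) ^ 2) :=
          (Real.summable_one_div_nat_pow.2 (by norm_num)).mul_left _
        exact (summable_nat_add_iff (k1 + 1)).2 h1
      refine ne_top_of_le_ne_top ?_ (ENNReal.tsum_le_tsum hbound)
      rw [← ENNReal.ofReal_tsum_of_nonneg (fun k => by positivity) hs]
      exact ENNReal.ofReal_ne_top
    have hae := ae_lt_top (Measurable.tsum hfm) hsum
    filter_upwards [hae] with x hx _
    have h1 : Tendsto (fun k => f k x) atTop (𝓝 0) :=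
      ENNReal.tendsto_atTop_zero_of_tsum_ne_top hx.ne
    rw [← tendsto_add_atTop_iff_nat (k1 + 1), tendsto_zero_iff_norm_tendsto_zero]
    have h2 : Tendsto (fun k => (f k x).toReal) atTop (𝓝 0) := by
      have := (ENNReal.tendsto_toReal (by simp : (0 : ℝ≥0∞) ≠ ⊤)).comp h1
      rwa [ENNReal.toReal_zero] at this
    have h3 : ∀ k, (f k x).toReal =
        ‖avg p q ϑ (fun y : T => fourier m y) (k + (k1 + 1)) x‖ ^ 4 := by
      intro k
      exact ENNReal.toReal_ofReal (by positivity)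
    simp_rw [h3] at h2
    have h5 := (Real.continuous_sqrt.tendsto 0).comp h2
    rw [Real.sqrt_zero] at h5
    have h4 := (Real.continuous_sqrt.tendsto 0).comp h5
    rw [Real.sqrt_zero] at h4
    refine h4.congr fun k => ?_
    show √(√(‖avg p q ϑ (fun y : T => fourier m y) (k + (k1 + 1)) x‖ ^ 4)) = _
    have e : ‖avg p q ϑ (fun y : T => fourier m y) (k + (k1 + 1)) x‖ ^ 4 =
        (‖avg p q ϑ (fun y : T => fourier m y) (k + (k1 + 1)) x‖ ^ 2) ^ 2 := by ring
    rw [e, Real.sqrt_sq (by positivity), Real.sqrt_sq (norm_nonneg _)]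


/-- the shell averages of continuous functions converge to the integral -/
lemma conv_fun {p q : ℕ} {ϑ : ℝ} {x : T}
    (hcard : ∀ᶠ k in atTop, 0 < (shell p q ϑ k).card)
    (h : ∀ m : ℤ, m ≠ 0 →
      Tendsto (fun k : ℕ => avg p q ϑ (fun y : T => fourier m y) k x) atTop (𝓝 0)) (F : C(T, ℂ)) :
    Tendsto (fun k : ℕ => avg p q ϑ (fun y : T => F y) k x) atTop
      (𝓝 (∫ y, F y ∂(volume : Measure T))) := by
  rw [Metric.tendsto_atTop']
  intro ε hε
  obtain ⟨M, c, hc⟩ := trig_approx F (ε := ε / 4) (by positivity)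
  have hm : ∀ m : ℤ, Tendsto (fun k : ℕ => avg p q ϑ (fun y : T => fourier m y) k x) atTop
      (𝓝 (∫ y, fourier m y ∂(volume : Measure T))) := by
    intro m
    rcases eq_or_ne m 0 with rfl | hm
    · have h1 : ∫ y : T, fourier 0 y ∂(volume : Measure T) = 1 := by simp
      rw [h1]
      refine tendsto_const_nhds.congr' ?_
      filter_upwards [hcard] with k hk
      have h2 : ((shell p q ϑ k).card : ℂ) ≠ 0 := by exact_mod_cast hk.ne'
      unfold avg
      simp only [fourier_zero, Finset.sum_const, nsmul_eq_mul, mul_one, Complex.real_smul]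
      push_cast
      rw [inv_mul_cancel₀ h2]
    · rw [Pool.Agent.H847R3.XpXq.integral_fourier_zero hm]
      exact h m hm
  have hP : ∀ k, avg p q ϑ (fun y : T => ∑ m ∈ M, c m * fourier m y) k x =
      ∑ m ∈ M, c m * avg p q ϑ (fun y : T => fourier m y) k x := by
    intro k
    unfold avg
    rw [Finset.sum_comm, Finset.smul_sum]
    refine Finset.sum_congr rfl fun m _ => ?_
    rw [← Finset.mul_sum, mul_smul_comm]
  have hcontP : Continuous fun y : T => ∑ m ∈ M, c m * fourier m y :=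
    continuous_finsetSum _ fun m _ => continuous_const.mul (fourier m).continuous
  have hint : ∫ y, (∑ m ∈ M, c m * fourier m y) ∂(volume : Measure T) =
      ∑ m ∈ M, c m * ∫ y, fourier m y ∂(volume : Measure T) := by
    rw [integral_finsetSum _ fun m _ => (integrable_cont volume (fourier m)).const_mul _]
    refine Finset.sum_congr rfl fun m _ => integral_const_mul _ _
  have hPl : Tendsto (fun k => avg p q ϑ (fun y : T => ∑ m ∈ M, c m * fourier m y) k x) atTop
      (𝓝 (∫ y, (∑ m ∈ M, c m * fourier m y) ∂(volume : Measure T))) := by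
    simp_rw [hP]
    rw [hint]
    exact tendsto_finsetSum _ fun m _ => (hm m).const_mul _
  obtain ⟨N, hN⟩ := Metric.tendsto_atTop'.1 hPl (ε / 2) (by positivity)
  refine ⟨N, fun k hk => ?_⟩
  have h1 := avg_sub_le (p := p) (q := q) (ϑ := ϑ) (by positivity : (0 : ℝ) ≤ ε / 4) hc k x
  have h2 := hN k hk
  have h3 : ‖∫ y, (∑ m ∈ M, c m * fourier m y) ∂(volume : Measure T) -
      ∫ y, F y ∂(volume : Measure T)‖ ≤ ε / 4 := by
    rw [← integral_sub (Pool.Agent.H847R3.XpXq.integrable_of_contC hcontP _)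
      (Pool.Agent.H847R3.XpXq.integrable_of_contC F.continuous _)]
    refine (norm_integral_le_of_norm_le_const (C := ε / 4) (Eventually.of_forall fun y => ?_)).trans ?_
    · rw [norm_sub_rev]; exact hc y
    · simp
  rw [dist_eq_norm] at h2 ⊢
  set a := avg p q ϑ (fun y : T => F y) k x
  set a' := avg p q ϑ (fun y : T => ∑ m ∈ M, c m * fourier m y) k x
  set I := ∫ y, (∑ m ∈ M, c m * fourier m y) ∂(volume : Measure T)
  have e : a - ∫ y, F y ∂(volume : Measure T) =
      (a - a') + (a' - I) + (I - ∫ y, F y ∂(volume : Measure T)) := by ring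
  rw [e]
  have h4 := norm_add_le ((a - a') + (a' - I)) (I - ∫ y, F y ∂(volume : Measure T))
  have h5 := norm_add_le (a - a') (a' - I)
  linarith

lemma shell_disj {p q : ℕ} {ϑ : ℝ} (hϑ : 1 < ϑ) {i j : ℕ} (hij : i ≠ j) :
    Disjoint (shell p q ϑ i) (shell p q ϑ j) := by
  rw [Finset.disjoint_left]
  intro n h1 h2
  rw [mem_shell] at h1 h2
  rcases lt_or_gt_of_ne hij with h | h
  · have : ϑ ^ (i + 1) ≤ ϑ ^ j := pow_le_pow_right₀ hϑ.le h
    linarith [h1.2.2, h2.2.1]
  · have : ϑ ^ (j + 1) ≤ ϑ ^ i := pow_le_pow_right₀ hϑ.le h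
    linarith [h2.2.2, h1.2.1]

/-- **Lebesgue almost every point is generic along windows.** -/
theorem ae_generic {p q : ℕ} (hp : 2 ≤ p) (hq : 2 ≤ q) (hpq : Nat.Coprime p q) :
    ∀ᵐ x ∂(volume : Measure T), WGen p q volume x := by
  classical
  have hirr := irr_of_coprime hp hq hpq
  set ϑ : ℕ → ℕ → ℝ := fun H J => Real.exp (Real.log H / (2 * J)) with hϑ
  have hϑ1 : ∀ H J : ℕ, 2 ≤ H → 1 ≤ J → 1 < ϑ H J := by
    intro H J hH hJ
    have h1 : (0 : ℝ) < J := by exact_mod_cast hJ
    have h2 : 0 < Real.log H := Real.log_pos (by exact_mod_cast hH)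
    exact Real.one_lt_exp_iff.2 (by positivity)
  have hae : ∀ᵐ x ∂(volume : Measure T), ∀ H J : ℕ, 2 ≤ H → 1 ≤ J → ∀ m : ℤ, m ≠ 0 →
      Tendsto (fun k : ℕ => avg p q (ϑ H J) (fun y : T => fourier m y) k x) atTop (𝓝 0) := by
    rw [ae_all_iff]; intro H
    rw [ae_all_iff]; intro J
    by_cases h : 2 ≤ H ∧ 1 ≤ J
    · filter_upwards [conv_vol0 hp hq hpq (hϑ1 H J h.1 h.2)] with x hx _ _
      exact hx
    · exact Eventually.of_forall fun x h1 h2 => absurd ⟨h1, h2⟩ h
  filter_upwards [hae] with x hx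
  intro f hf ε hε
  refine ⟨2, fun H hH => ?_⟩
  -- a bound for `f`
  obtain ⟨A0, hA0⟩ : ∃ A : ℝ, ∀ y : T, |f y| ≤ A := by
    obtain ⟨A, hA⟩ := (isCompact_univ (X := T)).exists_bound_of_continuousOn hf.continuousOn
    exact ⟨A, fun y => hA y (mem_univ y)⟩
  set I : ℝ := ∫ y, f y ∂(volume : Measure T) with hI
  set A : ℝ := A0 + |I| + 1 with hA
  have hA00 : 0 ≤ A0 := (abs_nonneg _).trans (hA0 0)
  have hA1 : 0 < A := by have := abs_nonneg I; linarith
  have hAb : ∀ y : T, |f y - I| ≤ A := by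
    intro y
    have h1 := abs_sub (f y) I
    have h2 := hA0 y
    linarith
  obtain ⟨J0, hJ0⟩ := exists_nat_ge (8 * A / ε)
  set J : ℕ := J0 + 1 with hJ
  have hJR : (0 : ℝ) < J := by positivity
  have hJA : 8 * A ≤ ε * J := by
    have h1 : 8 * A / ε ≤ J := hJ0.trans (by rw [hJ]; push_cast; linarith)
    rw [div_le_iff₀ hε] at h1
    linarith
  have hHR : (2 : ℝ) ≤ H := by exact_mod_cast hH
  have hH1 : (1 : ℝ) < H := by linarith
  have hH0 : (0 : ℝ) < H := by linarith
  set L : ℝ := Real.log H with hL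
  have hL0 : 0 < L := Real.log_pos hH1
  set θ : ℝ := ϑ H J with hθ
  have hθ1 : 1 < θ := hϑ1 H J hH (by omega)
  have hθ0 : 0 < θ := by linarith
  have hlogθ : Real.log θ = L / (2 * J) := Real.log_exp _
  have hlθ0 : 0 < Real.log θ := by rw [hlogθ]; positivity
  have hHθ : (H : ℝ) = θ ^ (2 * J) := by
    rw [hθ]
    simp only [hϑ]
    rw [← Real.exp_nat_mul, ← Real.exp_log hH0]
    congr 1
    push_cast
    rw [Real.exp_log hH0]
    field_simp
  obtain ⟨c0, M0, hc0, hgr⟩ := card_growth hp hq hθ1 hirr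
  have hcard : ∀ᶠ k in atTop, 0 < (shell p q θ k).card := by
    obtain ⟨k0, hk0⟩ := exists_nat_gt (M0 / c0)
    filter_upwards [eventually_ge_atTop k0] with k hk
    have h1 := hgr k
    have h2 : M0 / c0 < k := hk0.trans_le (by exact_mod_cast hk)
    rw [div_lt_iff₀ hc0] at h2
    have h3 : (0 : ℝ) < (shell p q θ k).card := by linarith
    exact_mod_cast h3
  have hconv := conv_fun hcard (hx H J hH (by omega))
    (⟨fun y => ((f y : ℝ) : ℂ), Complex.continuous_ofReal.comp hf⟩ : C(T, ℂ))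
  obtain ⟨k1, hk1⟩ := Metric.tendsto_atTop'.1 hconv (ε / 2) (by positivity)
  have hshell : ∀ k, k1 < k → |∑ n ∈ shell p q θ k, (f (n • x) - I)| ≤
      ε / 2 * (shell p q θ k).card := by
    intro k hk
    have h1 := hk1 k hk
    rw [dist_eq_norm] at h1
    have h2 : ∫ y, ((f y : ℝ) : ℂ) ∂(volume : Measure T) = ((I : ℝ) : ℂ) := integral_ofReal
    rcases Nat.eq_zero_or_pos (shell p q θ k).card with h0 | h0
    · rw [Finset.card_eq_zero] at h0
      rw [h0]; simp
    · have h0R : (0 : ℝ) < (shell p q θ k).card := by exact_mod_cast h0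
      have h3 : avg p q θ (fun y => ((f y : ℝ) : ℂ)) k x -
          ∫ y, ((f y : ℝ) : ℂ) ∂(volume : Measure T) =
          (((((shell p q θ k).card : ℝ)⁻¹ * ∑ n ∈ shell p q θ k, (f (n • x) - I) : ℝ)) : ℂ) := by
        rw [h2]
        unfold avg
        rw [Complex.real_smul, Finset.sum_sub_distrib, Finset.sum_const, nsmul_eq_mul]
        push_cast
        have h4 : (((shell p q θ k).card : ℕ) : ℂ) ≠ 0 := by exact_mod_cast h0.ne'
        field_simp
      have h5 : ‖avg p q θ (fun y => ((f y : ℝ) : ℂ)) k x -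
          ∫ y, ((f y : ℝ) : ℂ) ∂(volume : Measure T)‖ < ε / 2 := h1
      rw [h3, Complex.norm_real, Real.norm_eq_abs, abs_mul, abs_of_pos (inv_pos.2 h0R),
        inv_mul_lt_iff₀ h0R] at h5
      linarith
  obtain ⟨M, hM⟩ := thin hp hq hirr hH1 (J := J) (by omega) (3 * L)
  obtain ⟨δ, hδ, hδ2⟩ := card_large hp hq hirr hH1 M
  refine ⟨max (θ ^ (k1 + 2)) (2 / δ), fun X hX => ?_⟩
  have hX1 : θ ^ (k1 + 2) ≤ X := (le_max_left _ _).trans hX
  have hX2 : 2 / δ ≤ X := (le_max_right _ _).trans hX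
  have hX0 : 0 < X := lt_of_lt_of_le (by positivity) hX1
  have hXone : 1 ≤ X := le_trans (one_le_pow₀ hθ1.le) hX1
  obtain ⟨k, hk1', hk2'⟩ : ∃ k : ℕ, θ ^ k ≤ X ∧ X < θ ^ (k + 1) := exists_nat_pow_near hXone hθ1
  have hkk : k1 < k := by
    by_contra hcon
    push Not at hcon
    have : θ ^ (k + 1) ≤ θ ^ (k1 + 2) := pow_le_pow_right₀ hθ1.le (by omega)
    linarith
  set W := win p q X (H * X) with hW
  have hτX : (1 : ℝ) / (1 / X) = X := one_div_one_div X
  have hτX2 : (H : ℝ) / (1 / X) = H * X := by rw [div_div_eq_mul_div, div_one]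
  have hWM : (M : ℝ) ≤ W.card := by
    have := hδ2 (1 / X) (by positivity) (by
      rw [div_lt_iff₀ hX0]
      rw [div_le_iff₀ hδ] at hX2
      linarith)
    rwa [hτX, hτX2] at this
  have hHX : (H : ℝ) * X < θ ^ (k + 2 * J + 1) := by
    rw [hHθ, show k + 2 * J + 1 = 2 * J + (k + 1) by ring, pow_add θ (2 * J) (k + 1)]
    exact mul_lt_mul_of_pos_left hk2' (by positivity)
  have hHX2 : θ ^ (k + 2 * J) ≤ (H : ℝ) * X := by
    rw [hHθ, show k + 2 * J = 2 * J + k by ring, pow_add θ (2 * J) k]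
    exact mul_le_mul_of_nonneg_left hk1' (by positivity)
  set V : Finset ℕ := (Finset.Ioo k (k + 2 * J)).biUnion fun i => shell p q θ i with hV
  have hVdisj : ((Finset.Ioo k (k + 2 * J) : Finset ℕ) : Set ℕ).PairwiseDisjoint
      fun i => shell p q θ i := fun i _ j _ hij => shell_disj hθ1 hij
  have hVW : V ⊆ W := by
    intro n hn
    rw [hV, Finset.mem_biUnion] at hn
    obtain ⟨i, hi, hn⟩ := hn
    rw [Finset.mem_Ioo] at hi
    rw [mem_shell] at hn
    rw [hW, mem_win]
    refine ⟨hn.1, ?_, ?_⟩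
    · have h1 : θ ^ (k + 1) ≤ θ ^ i := pow_le_pow_right₀ hθ1.le hi.1
      linarith [hn.2.1]
    · have h1 : θ ^ (i + 1) ≤ θ ^ (k + 2 * J) := pow_le_pow_right₀ hθ1.le hi.2
      linarith [hn.2.2]
  have hWV : W \ V ⊆ shell p q θ k ∪ shell p q θ (k + 2 * J) := by
    intro n hn
    rw [Finset.mem_sdiff, hW, mem_win] at hn
    obtain ⟨⟨h1, h2, h3⟩, h4⟩ := hn
    obtain ⟨i, hi1, hi2⟩ : ∃ i : ℕ, θ ^ i ≤ (n : ℝ) ∧ (n : ℝ) < θ ^ (i + 1) :=
      exists_nat_pow_near (hXone.trans h2) hθ1
    have hni : n ∈ shell p q θ i := mem_shell.2 ⟨h1, hi1, hi2⟩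
    have h5 : k < i + 1 := (pow_lt_pow_iff_right₀ hθ1).1 (hk1'.trans_lt (h2.trans_lt hi2))
    have h6 : i < k + 2 * J + 1 :=
      (pow_lt_pow_iff_right₀ hθ1).1 (hi1.trans_lt (h3.trans hHX))
    rw [Finset.mem_union]
    by_cases h7 : i = k
    · left; rw [← h7]; exact hni
    · by_cases h8 : i = k + 2 * J
      · right; rw [← h8]; exact hni
      · exfalso
        apply h4
        rw [hV, Finset.mem_biUnion]
        exact ⟨i, Finset.mem_Ioo.2 ⟨by omega, by omega⟩, hni⟩
  have hthin : ∀ i : ℕ, (i = k ∨ i = k + 2 * J) →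
      (J : ℝ) * (shell p q θ i).card ≤ W.card + M := by
    intro i hi
    have hlogX1 : (k : ℝ) * Real.log θ ≤ Real.log X := by
      rw [← Real.log_pow]; exact Real.log_le_log (by positivity) hk1'
    have hlogX2 : Real.log X < ((k : ℝ) + 1) * Real.log θ := by
      have := Real.log_lt_log hX0 hk2'
      rw [Real.log_pow] at this
      push_cast at this
      exact this
    have hJL : 2 * (J : ℝ) * Real.log θ = L := by rw [hlogθ]; field_simp
    have hLθ : Real.log θ ≤ L := by
      rw [← hJL]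
      have : (1 : ℝ) ≤ J := by rw [hJ]; push_cast; linarith [Nat.cast_nonneg (α := ℝ) J0]
      nlinarith
    have h1 := hM (1 / X) (by positivity) (i * Real.log θ) (by
      have e : -Real.log (1 / X) = Real.log X := by rw [one_div, Real.log_inv, neg_neg]
      rw [e, abs_le]
      rcases hi with hi | hi
      · rw [hi]; constructor <;> linarith
      · rw [hi]; push_cast
        have e2 : ((k : ℝ) + 2 * J) * Real.log θ = k * Real.log θ + L := by rw [← hJL]; ring
        rw [e2]; constructor <;> linarith)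
    rw [hτX, hτX2] at h1
    have h2 : (shell p q θ i).card = cnt (Real.log p) (Real.log q) (i * Real.log θ)
        (Real.log (H : ℝ) / (2 * J)) := by
      rw [card_shell hp hq hθ1 hirr, hlogθ]
    rw [← h2] at h1
    exact_mod_cast h1
  -- conclusion
  have hsum : ∑ n ∈ W, f (n • x) - I * W.card = ∑ n ∈ W, (f (n • x) - I) := by
    rw [Finset.sum_sub_distrib, Finset.sum_const, nsmul_eq_mul]; ring
  rw [hsum, ← Finset.sum_sdiff hVW]
  have h1 : |∑ n ∈ W \ V, (f (n • x) - I)| ≤ ε / 2 * W.card := by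
    have h2 : |∑ n ∈ W \ V, (f (n • x) - I)| ≤ (W \ V).card * A := by
      refine (Finset.abs_sum_le_sum_abs _ _).trans ?_
      refine (Finset.sum_le_card_nsmul _ _ A fun n _ => hAb _).trans ?_
      rw [nsmul_eq_mul]
    have h3 : ((W \ V).card : ℝ) ≤ (shell p q θ k).card + (shell p q θ (k + 2 * J)).card := by
      exact_mod_cast (Finset.card_le_card hWV).trans (Finset.card_union_le _ _)
    have h4 := hthin k (Or.inl rfl)
    have h5 := hthin (k + 2 * J) (Or.inr rfl)
    have h6 : (J : ℝ) * (W \ V).card ≤ 4 * W.card := by nlinarith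
    have h7 : (J : ℝ) * ((W \ V).card * A) ≤ J * (ε / 2 * W.card) := by
      have h8 : (J : ℝ) * ((W \ V).card * A) ≤ 4 * W.card * A := by nlinarith
      have h9 : (0 : ℝ) ≤ W.card := Nat.cast_nonneg _
      nlinarith
    exact h2.trans (le_of_mul_le_mul_left h7 hJR)
  have h2 : |∑ n ∈ V, (f (n • x) - I)| ≤ ε / 2 * W.card := by
    rw [hV, Finset.sum_biUnion hVdisj]
    refine (Finset.abs_sum_le_sum_abs _ _).trans ?_
    have h3 : ∑ i ∈ Finset.Ioo k (k + 2 * J), |∑ n ∈ shell p q θ i, (f (n • x) - I)| ≤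
        ∑ i ∈ Finset.Ioo k (k + 2 * J), ε / 2 * ((shell p q θ i).card : ℝ) :=
      Finset.sum_le_sum fun i hi => hshell i (hkk.trans (Finset.mem_Ioo.1 hi).1)
    refine h3.trans ?_
    rw [← Finset.mul_sum]
    have h4 : V.card = ∑ i ∈ Finset.Ioo k (k + 2 * J), (shell p q θ i).card :=
      Finset.card_biUnion fun i hi j hj hij => hVdisj hi hj hij
    have h5 : ∑ i ∈ Finset.Ioo k (k + 2 * J), ((shell p q θ i).card : ℝ) ≤ W.card := by
      have h6 := Finset.card_le_card hVW
      rw [h4] at h6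
      exact_mod_cast h6
    gcongr
  refine (abs_add_le _ _).trans ?_
  linarith

end Pool.Agent.W764.HL
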