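import Pool.Agent.W764.HL.Core

/-!
Compactness: measures which are nearly invariant and have nearly well distributed differences.
-/

set_option autoImplicit false

open MeasureTheory Filter Topology Set
open scoped ENNReal BoundedContinuousFunction

namespace Pool.Agent.W764.HL

open Pool.Agent.W764.FB Pool.Agent.W764.SH

/-- lower semicontinuity on open sets -/
lemma open_lower {Ω : Type} [MeasurableSpace Ω] [TopologicalSpace Ω] [OpensMeasurableSpace Ω]
    [HasOuterApproxClosed Ω] {F : Filter ℕ} {lam : ℕ → ProbabilityMeasure Ω}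
    {L : ProbabilityMeasure Ω} (h : Tendsto lam F (𝓝 L)) {G : Set Ω} (hG : IsOpen G) {a : ℝ}
    (ha : a < (L : Measure Ω).real G) : ∀ᶠ n in F, a < (lam n : Measure Ω).real G := by
  rcases lt_or_ge a 0 with h0 | h0
  · exact Eventually.of_forall fun n => h0.trans_le measureReal_nonneg
  · have h1 : ENNReal.ofReal a < (L : Measure Ω) G := by
      rw [ENNReal.ofReal_lt_iff_lt_toReal h0 (measure_ne_top _ _)]
      exact ha
    have h2 := h1.trans_le (ProbabilityMeasure.le_liminf_measure_open_of_tendsto h hG)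
    filter_upwards [eventually_lt_of_lt_liminf h2] with n hn
    rw [ENNReal.ofReal_lt_iff_lt_toReal h0 (measure_ne_top _ _)] at hn
    exact hn

/-- a nearly invariant sequence has invariant limits -/
lemma inv_limit {m s : ℕ} {F : Filter ℕ} [F.NeBot] (hF : F ≤ atTop)
    {lam : ℕ → ProbabilityMeasure (Fin m → T)}
    {L : ProbabilityMeasure (Fin m → T)} (h : Tendsto lam F (𝓝 L))
    (hinv : ∀ n, ∀ f : (Fin m → T) →ᵇ ℝ, (∀ z, |f z| ≤ 1) →
      |∫ z, f (s • z) ∂(lam n : Measure (Fin m → T)) - ∫ z, f z ∂(lam n : Measure (Fin m → T))| ≤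
        1 / ((n : ℝ) + 8)) :
    MeasurePreserving (fun z : Fin m → T => s • z) (L : Measure (Fin m → T)) L := by
  have hc : Continuous fun z : Fin m → T => s • z := continuous_nsmul s
  refine ⟨hc.measurable, ?_⟩
  have : IsProbabilityMeasure (Measure.map (fun z : Fin m → T => s • z)
    (L : Measure (Fin m → T))) := Measure.isProbabilityMeasure_map hc.measurable.aemeasurable
  -- functions bounded by one
  have key : ∀ g : (Fin m → T) →ᵇ ℝ, (∀ z, |g z| ≤ 1) →
      ∫ z, g (s • z) ∂(L : Measure (Fin m → T)) = ∫ z, g z ∂(L : Measure (Fin m → T)) := by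
    intro g hg
    have h1 := (ProbabilityMeasure.tendsto_iff_forall_integral_tendsto.1 h) g
    have h2 := (ProbabilityMeasure.tendsto_iff_forall_integral_tendsto.1 h)
      (g.compContinuous ⟨_, hc⟩)
    have h3 := h2.sub h1
    have h4 : Tendsto (fun n : ℕ => ∫ z, (g.compContinuous ⟨_, hc⟩) z ∂(lam n : Measure (Fin m → T)) -
        ∫ z, g z ∂(lam n : Measure (Fin m → T))) F (𝓝 0) := by
      have h5 : Tendsto (fun n : ℕ => 1 / ((n : ℝ) + 8)) F (𝓝 0) := by
        have h6 : Tendsto (fun n : ℕ => (n : ℝ) + 8) atTop atTop :=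
          tendsto_atTop_add_const_right _ _ tendsto_natCast_atTop_atTop
        have h7 := tendsto_inv_atTop_zero.comp h6
        refine (h7.congr fun n => ?_).mono_left hF
        show ((n : ℝ) + 8)⁻¹ = _
        rw [one_div]
      exact squeeze_zero_norm (fun n => hinv n g hg) h5
    have h5 := tendsto_nhds_unique h3 h4
    exact sub_eq_zero.1 h5
  refine ext_of_forall_integral_eq_of_IsFiniteMeasure fun f => ?_
  rw [integral_map hc.measurable.aemeasurable f.continuous.aestronglyMeasurable]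
  set a : ℝ := (‖f‖ + 1)⁻¹ with ha
  have ha0 : 0 < a := by positivity
  have h1 := key (a • f) (fun z => by
    show |a • f z| ≤ 1
    rw [smul_eq_mul, abs_mul, abs_of_pos ha0]
    have h2 : |f z| ≤ ‖f‖ := f.norm_coe_le_norm z
    rw [ha, inv_mul_le_iff₀ (by positivity)]
    linarith)
  have h2 : ∀ z, (a • f) z = a * f z := fun z => rfl
  simp_rw [h2] at h1
  rw [integral_const_mul, integral_const_mul] at h1
  exact mul_left_cancel₀ ha0.ne' h1

lemma vol_ball (x : T) {r : ℝ} (hr : r ≤ 1 / 2) (hr0 : 0 ≤ r) :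
    (volume : Measure T).real (Metric.ball x r) = 2 * r := by
  have h1 := (AddCircle.closedBall_ae_eq_ball (T := 1) (x := x) (ε := r))
  rw [measureReal_def, ← measure_congr h1, AddCircle.volume_closedBall,
    ENNReal.toReal_ofReal (by positivity)]
  exact min_eq_right (by linarith)

/-- from arcs of the grid to all arcs -/
lemma grid {m : ℕ} {mu : Measure (Fin m → T)} [IsProbabilityMeasure mu] {ε : ℝ} (hε : 0 < ε)
    {Q : ℕ} (hQ : 8 / ε ≤ Q) (hQ1 : 1 ≤ Q) {i : Fin m} {α : ℝ} (hα0 : 0 ≤ α) (hα1 : α ≤ 1)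
    (h : ∀ a ∈ Finset.range Q, ∀ b ∈ Finset.range (Q + 1), ((b : ℝ) / Q) ≤ 1 / 2 →
      α * (2 * ((b : ℝ) / Q)) - ε / 2 ≤
        mu.real {z | z i ∈ Metric.ball (((a : ℝ) / Q : ℝ) : T) ((b : ℝ) / Q)})
    (c : T) {r : ℝ} (hr : r ≤ 1 / 2) : 2 * r * α - ε ≤ mu.real {z | ‖z i - c‖ ≤ r} := by
  have hQR : (0 : ℝ) < Q := by exact_mod_cast hQ1
  have hQe : 8 / (Q : ℝ) ≤ ε := by
    rw [div_le_iff₀ hε] at hQ
    rw [div_le_iff₀ hQR]; linarith
  rcases lt_or_ge r (1 / Q) with h1 | h1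
  · refine le_trans ?_ measureReal_nonneg
    have h2 : 2 * r * α ≤ 2 * (1 / Q) := by
      rcases le_or_gt 0 r with h3 | h3
      · have : r * α ≤ r := mul_le_of_le_one_right h3 hα1
        linarith
      · have h4 : r * α ≤ 0 := mul_nonpos_of_nonpos_of_nonneg h3.le hα0
        have h5 : 0 < 1 / (Q : ℝ) := by positivity
        linarith
    have h3 : 8 / (Q : ℝ) = 8 * (1 / Q) := by ring
    have h4 : 0 < 1 / (Q : ℝ) := by positivity
    linarith
  · obtain ⟨x, hx0, hx1, rfl⟩ : ∃ x : ℝ, 0 ≤ x ∧ x < 1 ∧ ((x : ℝ) : T) = c := by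
      obtain ⟨d0, rfl⟩ : ∃ d : ℝ, (d : T) = c := QuotientAddGroup.mk_surjective c
      refine ⟨Int.fract d0, Int.fract_nonneg _, Int.fract_lt_one _, ?_⟩
      have h2 : Int.fract d0 = d0 - ⌊d0⌋ := rfl
      rw [h2, AddCircle.coe_sub]
      have h3 : ((⌊d0⌋ : ℝ) : T) = 0 := by
        rw [AddCircle.coe_eq_zero_iff]
        exact ⟨⌊d0⌋, by rw [zsmul_eq_mul, mul_one]⟩
      rw [h3, sub_zero]
    set a : ℕ := ⌊x * Q⌋₊ with ha
    have ha1 : (a : ℝ) ≤ x * Q := Nat.floor_le (by positivity)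
    have ha2 : x * Q < a + 1 := Nat.lt_floor_add_one _
    have haQ : a < Q := by
      have : (a : ℝ) < Q := by nlinarith
      exact_mod_cast this
    set b : ℕ := ⌊r * Q⌋₊ - 1 with hb
    have hr0 : 0 ≤ r := le_trans (by positivity) h1
    have hrQ : 1 ≤ r * Q := by rwa [div_le_iff₀ hQR] at h1
    have hfl : 1 ≤ ⌊r * Q⌋₊ := (Nat.one_le_floor_iff _).2 hrQ
    have hbR : (b : ℝ) = (⌊r * Q⌋₊ : ℝ) - 1 := by
      rw [hb]; push_cast [hfl]; ring
    have hb1 : (⌊r * Q⌋₊ : ℝ) ≤ r * Q := Nat.floor_le (by positivity)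
    have hb2 : r * Q < ⌊r * Q⌋₊ + 1 := Nat.lt_floor_add_one _
    have hbQ : (b : ℝ) / Q ≤ r - 1 / Q := by
      rw [div_le_iff₀ hQR, hbR, sub_mul, div_mul_cancel₀ _ hQR.ne']
      linarith
    have hbQ2 : r - 2 / Q ≤ (b : ℝ) / Q := by
      rw [le_div_iff₀ hQR, hbR, sub_mul, div_mul_cancel₀ _ hQR.ne']
      linarith
    have hQpos : 0 < 1 / (Q : ℝ) := by positivity
    have hb3 : b < Q + 1 := by
      have h2 : (b : ℝ) / Q ≤ 1 := by linarith
      rw [div_le_iff₀ hQR] at h2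
      have h3 : (b : ℝ) < Q + 1 := by linarith
      exact_mod_cast h3
    have h2 := h a (Finset.mem_range.2 haQ) b (Finset.mem_range.2 hb3) (by linarith)
    have hsub : {z : Fin m → T | z i ∈ Metric.ball (((a : ℝ) / Q : ℝ) : T) ((b : ℝ) / Q)} ⊆
        {z | ‖z i - ((x : ℝ) : T)‖ ≤ r} := by
      intro z hz
      simp only [mem_ofPred_eq, Metric.mem_ball, dist_eq_norm] at hz ⊢
      have h3 : ‖(((a : ℝ) / Q : ℝ) : T) - ((x : ℝ) : T)‖ ≤ 1 / Q := by
        rw [← AddCircle.coe_sub, UnitAddCircle.norm_eq]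
        have h4 : |(a : ℝ) / Q - x| ≤ 1 / Q := by
          have h5 : (a : ℝ) / Q ≤ x := by rw [div_le_iff₀ hQR]; exact ha1
          have h6 : x < ((a : ℝ) + 1) / Q := by rw [lt_div_iff₀ hQR]; exact ha2
          have h7 : ((a : ℝ) + 1) / Q = (a : ℝ) / Q + 1 / Q := by ring
          rw [abs_le]
          constructor <;> linarith
        refine le_trans ?_ h4
        have h5 := round_le ((a : ℝ) / Q - x) 0
        rwa [Int.cast_zero, sub_zero] at h5
      have e : z i - ((x : ℝ) : T) = (z i - (((a : ℝ) / Q : ℝ) : T)) +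
          ((((a : ℝ) / Q : ℝ) : T) - ((x : ℝ) : T)) := by abel
      rw [e]
      exact (norm_add_le _ _).trans (by linarith)
    have h3 : mu.real {z | z i ∈ Metric.ball (((a : ℝ) / Q : ℝ) : T) ((b : ℝ) / Q)} ≤
        mu.real {z | ‖z i - ((x : ℝ) : T)‖ ≤ r} := measureReal_mono hsub (measure_ne_top _ _)
    have h4 : α * (2 * (r - 2 / Q)) ≤ α * (2 * ((b : ℝ) / Q)) := by gcongr
    have h5 : α * (4 / Q) ≤ 4 / Q := mul_le_of_le_one_left (by positivity) hα1
    have h6 : 8 / (Q : ℝ) = 2 * (4 / Q) := by ring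
    have h7 : α * (2 * (r - 2 / Q)) = 2 * r * α - α * (4 / Q) := by ring
    linarith

/-- **Compactness.** -/
theorem compactness {m p q : ℕ} (hp : 2 ≤ p) (hq : 2 ≤ q) (hpq : Nat.Coprime p q) {C : ℝ}
    (hC : 0 < C) {ε : ℝ} (hε : 0 < ε) :
    ∃ N : ℕ, 8 ≤ N ∧ ∀ (lam : Measure (Fin m → T)), IsProbabilityMeasure lam →
      (∀ s : ℕ, s = p ∨ s = q → ∀ f : (Fin m → T) →ᵇ ℝ, (∀ z, |f z| ≤ 1) →
        |∫ z, f (s • z) ∂lam - ∫ z, f z ∂lam| ≤ 1 / N) →
      (∀ i j, i ≠ j → ∀ c : T, ∀ k : ℕ, 8 ≤ k → k ≤ N →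
        lam.real {z | ‖z i - z j - c‖ ≤ 1 / k} ≤ C * (1 / k) + 1 / N) →
      ∃ α : Fin m → ℝ, (∀ i, 0 ≤ α i ∧ α i ≤ 1) ∧ ∑ i, (1 - α i) ≤ 1 ∧
        ∀ i, ∀ c : T, ∀ r : ℝ, r ≤ 1 / 2 → 2 * r * α i - ε ≤ lam.real {z | ‖z i - c‖ ≤ r} := by
  by_contra hcon
  push Not at hcon
  have hcon' : ∀ n : ℕ, ∃ lam : ProbabilityMeasure (Fin m → T),
      (∀ s : ℕ, s = p ∨ s = q → ∀ f : (Fin m → T) →ᵇ ℝ, (∀ z, |f z| ≤ 1) →
        |∫ z, f (s • z) ∂(lam : Measure (Fin m → T)) - ∫ z, f z ∂(lam : Measure (Fin m → T))| ≤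
          1 / ((n : ℝ) + 8)) ∧
      (∀ i j, i ≠ j → ∀ c : T, ∀ k : ℕ, 8 ≤ k → k ≤ n + 8 →
        (lam : Measure (Fin m → T)).real {z | ‖z i - z j - c‖ ≤ 1 / k} ≤
          C * (1 / k) + 1 / ((n : ℝ) + 8)) ∧
      ∀ α : Fin m → ℝ, (∀ i, 0 ≤ α i ∧ α i ≤ 1) → ∑ i, (1 - α i) ≤ 1 →
        ∃ i, ∃ c : T, ∃ r : ℝ, r ≤ 1 / 2 ∧
          (lam : Measure (Fin m → T)).real {z | ‖z i - c‖ ≤ r} < 2 * r * α i - ε := by
    intro n
    obtain ⟨lam, h1, h2, h3, h4⟩ := hcon (n + 8) (by omega)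
    refine ⟨⟨lam, h1⟩, ?_, ?_, ?_⟩
    · intro s hs f hf
      have := h2 s hs f hf
      push_cast at this
      exact this
    · intro i j hij c k hk1 hk2
      have := h3 i j hij c k hk1 hk2
      push_cast at this
      exact this
    · exact h4
  choose lam hlam1 hlam2 hlam3 using hcon'
  set F : Filter ℕ := (hyperfilter ℕ : Filter ℕ) with hF
  have hFat : F ≤ atTop := Nat.hyperfilter_le_atTop
  obtain ⟨L, -, hL⟩ := (isCompact_univ (X := ProbabilityMeasure (Fin m → T))).ultrafilter_le_nhds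
    ((hyperfilter ℕ).map lam) (by simp)
  have hlim : Tendsto lam F (𝓝 L) := hL
  have hmp : ∀ s : ℕ, s = p ∨ s = q →
      MeasurePreserving (fun z : Fin m → T => s • z) (L : Measure (Fin m → T)) L :=
    fun s hs => inv_limit hFat hlim fun n f hf => hlam1 n s hs f hf
  have hzero : Tendsto (fun n : ℕ => 1 / ((n : ℝ) + 8)) F (𝓝 0) := by
    have h6 : Tendsto (fun n : ℕ => (n : ℝ) + 8) atTop atTop :=
      tendsto_atTop_add_const_right _ _ tendsto_natCast_atTop_atTop
    have h7 := tendsto_inv_atTop_zero.comp h6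
    refine (h7.congr fun n => ?_).mono_left hFat
    show ((n : ℝ) + 8)⁻¹ = _
    rw [one_div]
  have harc1 : ∀ i j, i ≠ j → ∀ c : T, ∀ k : ℕ, 8 ≤ k →
      (L : Measure (Fin m → T)).real {z | ‖z i - z j - c‖ < 1 / k} ≤ C * (1 / k) := by
    intro i j hij c k hk
    by_contra hlt
    push Not at hlt
    obtain ⟨a, ha1, ha2⟩ := exists_between hlt
    have hopen : IsOpen {z : Fin m → T | ‖z i - z j - c‖ < 1 / k} :=
      isOpen_lt (by fun_prop) continuous_const
    have h1 := open_lower hlim hopen ha2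
    have h2 : ∀ᶠ n : ℕ in F, k ≤ n + 8 := by
      refine hFat ?_
      filter_upwards [eventually_ge_atTop k] with n hn
      omega
    have h3 : ∀ᶠ n : ℕ in F, 1 / ((n : ℝ) + 8) < a - C * (1 / k) :=
      hzero.eventually (gt_mem_nhds (by linarith))
    obtain ⟨n, hn1, hn2, hn3⟩ := (h1.and (h2.and h3)).exists
    have h4 := hlam2 n i j hij c k hk hn2
    have h5 : (lam n : Measure (Fin m → T)).real {z | ‖z i - z j - c‖ < 1 / k} ≤
        (lam n : Measure (Fin m → T)).real {z | ‖z i - z j - c‖ ≤ 1 / k} :=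
      measureReal_mono (fun z hz => by
        simp only [mem_ofPred_eq] at hz ⊢
        exact hz.le) (measure_ne_top _ _)
    linarith
  obtain ⟨α, hα1, hα2, hα3⟩ := core hp hq hpq (L : Measure (Fin m → T)) (hmp p (Or.inl rfl))
    (hmp q (Or.inr rfl)) (C := 2 * C) (ρ0 := 1 / 9) (by positivity) (by norm_num) (by
      intro i j hij c ρ hρ hρ9
      have h1 : 9 ≤ 1 / ρ := by rw [le_div_iff₀ hρ]; linarith
      have h2 : 9 ≤ ⌊1 / ρ⌋₊ := Nat.le_floor (by exact_mod_cast h1)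
      obtain ⟨k, hk⟩ : ∃ k, ⌊1 / ρ⌋₊ = k + 1 := ⟨⌊1 / ρ⌋₊ - 1, by omega⟩
      have hk8 : 8 ≤ k := by omega
      have h3 : ((k : ℝ) + 1) ≤ 1 / ρ := by
        have := Nat.floor_le (show 0 ≤ 1 / ρ by positivity)
        rw [hk] at this
        push_cast at this
        exact this
      have h4 : 1 / ρ < (k : ℝ) + 2 := by
        have := Nat.lt_floor_add_one (1 / ρ)
        rw [hk] at this
        push_cast at this
        linarith
      have hk0 : (0 : ℝ) < k := by
        have : 0 < k := by omega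
        exact_mod_cast this
      have hk8' : (8 : ℝ) ≤ k := by exact_mod_cast hk8
      rw [le_div_iff₀ hρ] at h3
      rw [div_lt_iff₀ hρ] at h4
      have h5 : ρ < 1 / k := by rw [lt_div_iff₀ hk0]; nlinarith
      have h6 : (1 : ℝ) / k ≤ 2 * ρ := by
        rw [div_le_iff₀ hk0]; nlinarith
      calc (L : Measure (Fin m → T)).real {z | ‖z i - z j - c‖ ≤ ρ}
          ≤ (L : Measure (Fin m → T)).real {z | ‖z i - z j - c‖ < 1 / k} :=
            measureReal_mono (fun z hz => by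
              simp only [mem_ofPred_eq] at hz ⊢
              exact lt_of_le_of_lt hz h5) (measure_ne_top _ _)
        _ ≤ C * (1 / k) := harc1 i j hij c k hk8
        _ ≤ C * (2 * ρ) := by gcongr
        _ = 2 * C * ρ := by ring)
  obtain ⟨Q0, hQ0⟩ := exists_nat_ge (8 / ε)
  set Q : ℕ := Q0 + 1 with hQ
  have hQe : 8 / ε ≤ Q := by rw [hQ]; push_cast; linarith
  have hev : ∀ᶠ n in F, ∀ i, ∀ a ∈ Finset.range Q, ∀ b ∈ Finset.range (Q + 1),
      ((b : ℝ) / Q) ≤ 1 / 2 → α i * (2 * ((b : ℝ) / Q)) - ε / 2 ≤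
        (lam n : Measure (Fin m → T)).real
          {z | z i ∈ Metric.ball (((a : ℝ) / Q : ℝ) : T) ((b : ℝ) / Q)} := by
    rw [eventually_all]
    intro i
    rw [eventually_all_finset]
    intro a _
    rw [eventually_all_finset]
    intro b _
    by_cases hb : ((b : ℝ) / Q) ≤ 1 / 2
    · have hopen : IsOpen {z : Fin m → T | z i ∈
          Metric.ball (((a : ℝ) / Q : ℝ) : T) ((b : ℝ) / Q)} :=
        Metric.isOpen_ball.preimage (continuous_apply i)
      have h1 := hα3 i (Metric.ball (((a : ℝ) / Q : ℝ) : T) ((b : ℝ) / Q)) measurableSet_ball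
      rw [vol_ball _ hb (by positivity)] at h1
      have h2 := open_lower hlim hopen (a := α i * (2 * ((b : ℝ) / Q)) - ε / 2) (by linarith)
      filter_upwards [h2] with n hn _
      exact hn.le
    · exact Eventually.of_forall fun n h => absurd h hb
  obtain ⟨n, hn⟩ := hev.exists
  obtain ⟨i, c, r, hr, hbad⟩ := hlam3 n α hα1 hα2
  have := grid hε hQe (by omega) (hα1 i).1 (hα1 i).2 (hn i) c hr
  linarith

end Pool.Agent.W764.HL
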