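import Pool.Agent.W764.HL.Cluster
import Pool.Agent.W764.SH.Null

/-!
Pairs of close points, and the countable exceptional set.
-/

set_option autoImplicit false

open MeasureTheory Filter Topology Set
open scoped ENNReal

namespace Pool.Agent.W764.HL

open Pool.Agent.W764.FB Pool.Agent.W764.SH

open Classical in
/-- visits of the orbit of `x` to an arc, in a window -/
noncomputable def vis (p q : ℕ) (X Y : ℝ) (x c : T) (r : ℝ) : ℕ :=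
  ((win p q X Y).filter fun n => ‖n • x - c‖ ≤ r).card

/-- **Pairs.** -/
theorem pair {p q : ℕ} (hp : 2 ≤ p) (hq : 2 ≤ q) (hpq : Nat.Coprime p q) {ε : ℝ} (hε : 0 < ε) :
    ∃ H0 : ℝ, 1 < H0 ∧ ∀ H : ℝ, H0 ≤ H → ∃ δ : ℝ, 0 < δ ∧ ∀ x y : T, x ≠ y → ‖x - y‖ < δ →
      (win p q (1 / ‖x - y‖) (H / ‖x - y‖)).Nonempty ∧
      ∃ α : ℝ, 0 ≤ α ∧ α ≤ 1 ∧ ∀ c : T, ∀ r : ℝ, 0 ≤ r → r ≤ 1 / 2 →
        (2 * r * α - ε) * (win p q (1 / ‖x - y‖) (H / ‖x - y‖)).card ≤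
          (vis p q (1 / ‖x - y‖) (H / ‖x - y‖) x c r : ℝ) ∧
        (2 * r * (1 - α) - ε) * (win p q (1 / ‖x - y‖) (H / ‖x - y‖)).card ≤
          (vis p q (1 / ‖x - y‖) (H / ‖x - y‖) y c r : ℝ) := by
  obtain ⟨H0, hH0, h⟩ := cluster hp hq hpq 2 (le_refl (1 : ℝ)) hε
  refine ⟨H0, hH0, fun H hH => ?_⟩
  obtain ⟨δ, hδ, h2⟩ := h H hH
  refine ⟨δ, hδ, fun x y hxy hxyδ => ?_⟩
  have hτ : 0 < ‖x - y‖ := norm_pos_iff.2 (sub_ne_zero.2 hxy)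
  obtain ⟨hne, h3⟩ := h2 ‖x - y‖ hτ hxyδ
  refine ⟨hne, ?_⟩
  obtain ⟨α, hα1, hα2, hα3⟩ := h3 ![x, y] (by
    intro i j hij
    have h4 : ‖(![x, y] : Fin 2 → T) i - (![x, y] : Fin 2 → T) j‖ = ‖x - y‖ := by
      fin_cases i <;> fin_cases j
      · exact absurd rfl hij
      · rfl
      · exact norm_sub_rev _ _
      · exact absurd rfl hij
    rw [h4, one_mul]
    exact ⟨le_rfl, le_rfl⟩)
  rw [Fin.sum_univ_two] at hα2
  refine ⟨α 0, (hα1 0).1, (hα1 0).2, fun c r hr0 hr => ⟨?_, ?_⟩⟩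
  · have h4 := hα3 0 c r hr
    have e0 : (![x, y] : Fin 2 → T) 0 = x := rfl
    rw [e0] at h4
    unfold vis
    exact h4
  · have h4 := hα3 1 c r hr
    have h5 : (2 * r * (1 - α 0) - ε) * (win p q (1 / ‖x - y‖) (H / ‖x - y‖)).card ≤
        (2 * r * α 1 - ε) * (win p q (1 / ‖x - y‖) (H / ‖x - y‖)).card := by
      have h6 : 1 - α 0 ≤ α 1 := by linarith
      gcongr
    refine h5.trans ?_
    have e1 : (![x, y] : Fin 2 → T) 1 = y := rfl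
    rw [e1] at h4
    unfold vis
    exact h4

/-- the points which are never `θ`-Lebesgue in the windows of ratio `H` beyond `X0` -/
def bad (p q : ℕ) (θ ε H X0 : ℝ) : Set T :=
  {x | ∀ X : ℝ, X0 ≤ X → (win p q X (H * X)).Nonempty →
    ∃ c : T, ∃ r : ℝ, 0 ≤ r ∧ r ≤ 1 / 2 ∧
      (vis p q X (H * X) x c r : ℝ) < (2 * r * θ - ε) * (win p q X (H * X)).card}

lemma bad_countable {p q : ℕ} (hp : 2 ≤ p) (hq : 2 ≤ q) (hpq : Nat.Coprime p q) {ε : ℝ}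
    (hε : 0 < ε) : ∃ H0 : ℝ, 1 < H0 ∧ ∀ H : ℝ, H0 ≤ H → ∀ X0 : ℝ,
      (bad p q (1 / 2) ε H X0).Countable := by
  obtain ⟨H0, hH0, h⟩ := pair hp hq hpq hε
  refine ⟨H0, hH0, fun H hH X0 => ?_⟩
  obtain ⟨δ, hδ, h2⟩ := h H hH
  have hH1 : 0 < H := by linarith
  set τ0 : ℝ := min δ (1 / max X0 1) with hτ0
  have hmax : 0 < max X0 1 := lt_max_of_lt_right one_pos
  refine countable_of_sep (τ := τ0) (by positivity) fun x hx y hy hxy => ?_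
  by_contra hne
  have hτ : 0 < ‖x - y‖ := norm_pos_iff.2 (sub_ne_zero.2 hne)
  obtain ⟨hW, α, hα0, hα1, hα⟩ := h2 x y hne (hxy.trans_le (min_le_left _ _))
  have hX : X0 ≤ 1 / ‖x - y‖ := by
    have h3 : ‖x - y‖ ≤ 1 / max X0 1 := (hxy.trans_le (min_le_right _ _)).le
    rw [le_div_iff₀ hmax] at h3
    rw [le_div_iff₀ hτ]
    have h4 : X0 * ‖x - y‖ ≤ max X0 1 * ‖x - y‖ := by
      gcongr; exact le_max_left _ _
    linarith
  have he : H / ‖x - y‖ = H * (1 / ‖x - y‖) := by ring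
  rw [he] at hW hα
  have hWc : (0 : ℝ) < (win p q (1 / ‖x - y‖) (H * (1 / ‖x - y‖))).card := by
    exact_mod_cast hW.card_pos
  rcases le_total (1 / 2) α with h3 | h3
  · obtain ⟨c, r, hr0, hr, hlt⟩ := hx _ hX hW
    have h4 := (hα c r hr0 hr).1
    have h5 : (2 * r * (1 / 2) - ε) * (win p q (1 / ‖x - y‖) (H * (1 / ‖x - y‖))).card ≤
        (2 * r * α - ε) * (win p q (1 / ‖x - y‖) (H * (1 / ‖x - y‖))).card := by gcongr
    linarith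
  · obtain ⟨c, r, hr0, hr, hlt⟩ := hy _ hX hW
    have h4 := (hα c r hr0 hr).2
    have h5 : (2 * r * (1 / 2) - ε) * (win p q (1 / ‖x - y‖) (H * (1 / ‖x - y‖))).card ≤
        (2 * r * (1 - α) - ε) * (win p q (1 / ‖x - y‖) (H * (1 / ‖x - y‖))).card := by
      have h6 : 1 / 2 ≤ 1 - α := by linarith
      gcongr
    linarith

/-- **Half of Lebesgue outside a countable set.** -/
theorem half {p q : ℕ} (hp : 2 ≤ p) (hq : 2 ≤ q) (hpq : Nat.Coprime p q) :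
    ∃ E : Set T, E.Countable ∧ ∀ ε : ℝ, 0 < ε → ∃ H0 : ℕ, ∀ H : ℕ, H0 ≤ H → ∀ x : T, x ∉ E →
      ∀ X0 : ℝ, ∃ X : ℝ, X0 ≤ X ∧ (win p q X (H * X)).Nonempty ∧
        ∀ c : T, ∀ r : ℝ, 0 ≤ r → r ≤ 1 / 2 →
          (r - ε) * (win p q X (H * X)).card ≤ (vis p q X (H * X) x c r : ℝ) := by
  have h := fun n : ℕ => bad_countable hp hq hpq (ε := 1 / ((n : ℝ) + 1)) (by positivity)
  choose H0 hH0 h using h
  refine ⟨⋃ n : ℕ, ⋃ H : ℕ, ⋃ _ : H0 n ≤ H, ⋃ X0 : ℕ, bad p q (1 / 2) (1 / ((n : ℝ) + 1)) H X0,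
    countable_iUnion fun n => countable_iUnion fun H => countable_iUnion fun hH =>
      countable_iUnion fun X0 => h n H hH X0, fun ε hε => ?_⟩
  obtain ⟨n, hn⟩ := exists_nat_one_div_lt hε
  obtain ⟨H1, hH1⟩ := exists_nat_ge (H0 n)
  refine ⟨H1, fun H hH x hx X0 => ?_⟩
  obtain ⟨X1, hX1⟩ := exists_nat_ge X0
  by_contra hcon
  apply hx
  simp only [mem_iUnion]
  refine ⟨n, H, hH1.trans (by exact_mod_cast hH), X1, ?_⟩
  intro X hX hW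
  by_contra hcon2
  push Not at hcon2
  apply hcon
  refine ⟨X, hX1.trans hX, hW, fun c r hr0 hr => ?_⟩
  have h1 := hcon2 c r hr0 hr
  refine le_trans ?_ h1
  have h2 : r - ε ≤ 2 * r * (1 / 2) - 1 / ((n : ℝ) + 1) := by linarith
  gcongr

end Pool.Agent.W764.HL
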