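import Pool.Agent.W764.SH.Vol

/-!
Windows `X ≤ n < Y` of the multiplicative semigroup generated by `p` and `q`, and the number of
their elements in thin subwindows.
-/

set_option autoImplicit false

open Filter Topology Set

namespace Pool.Agent.W764.HL

open Pool.Agent.W764.SH

open Classical in
/-- the elements `n = p ^ a * q ^ b` with `X ≤ n < Y` -/
noncomputable def win (p q : ℕ) (X Y : ℝ) : Finset ℕ :=
  (Finset.range ⌈Y⌉₊).filter fun n => (∃ a b : ℕ, n = p ^ a * q ^ b) ∧ X ≤ n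

open Classical in
lemma mem_win {p q : ℕ} {X Y : ℝ} {n : ℕ} : n ∈ win p q X Y ↔
    (∃ a b : ℕ, n = p ^ a * q ^ b) ∧ X ≤ n ∧ (n : ℝ) < Y := by
  unfold win
  rw [Finset.mem_filter, Finset.mem_range, Nat.lt_ceil]
  tauto

section
variable {p q : ℕ} (hp : 2 ≤ p) (hq : 2 ≤ q)
include hp hq

lemma mem_slab_iff' {X Y : ℝ} (hX : 0 < X) (hY : 0 < Y) (a b : ℕ) :
    (a, b) ∈ slab (Real.log p) (Real.log q) (Real.log X) (Real.log Y - Real.log X) ↔
    X ≤ ((p ^ a * q ^ b : ℕ) : ℝ) ∧ ((p ^ a * q ^ b : ℕ) : ℝ) < Y := by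
  have hn : (0 : ℝ) < ((p ^ a * q ^ b : ℕ) : ℝ) := by
    have : 0 < p ^ a * q ^ b := by positivity
    exact_mod_cast this
  show (Real.log X ≤ a * Real.log p + b * Real.log q ∧
    a * Real.log p + b * Real.log q < Real.log X + (Real.log Y - Real.log X)) ↔ _
  rw [← log_pow_mul hp hq, add_sub_cancel, Real.log_le_log_iff hX hn, Real.log_lt_log_iff hn hY]

lemma coe_win {X Y : ℝ} (hX : 0 < X) (hY : 0 < Y) :
    (win p q X Y : Set ℕ) = (fun u : ℕ × ℕ => p ^ u.1 * q ^ u.2) ''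
      slab (Real.log p) (Real.log q) (Real.log X) (Real.log Y - Real.log X) := by
  ext n
  rw [Finset.mem_coe, mem_win]
  constructor
  · rintro ⟨⟨a, b, rfl⟩, h2⟩
    exact ⟨(a, b), (mem_slab_iff' hp hq hX hY a b).2 h2, rfl⟩
  · rintro ⟨⟨a, b⟩, h1, rfl⟩
    exact ⟨⟨a, b, rfl⟩, (mem_slab_iff' hp hq hX hY a b).1 h1⟩

lemma card_win (hirr : Irrational (Real.log p / Real.log q)) {X Y : ℝ} (hX : 0 < X) (hY : 0 < Y) :
    (win p q X Y).card =
      cnt (Real.log p) (Real.log q) (Real.log X) (Real.log Y - Real.log X) := by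
  rw [← Set.ncard_coe_finset, coe_win hp hq hX hY]
  exact Set.ncard_image_of_injective _ (pow_mul_inj hp hq hirr)

/-- the windows at large positions are large -/
lemma card_large (hirr : Irrational (Real.log p / Real.log q)) {H : ℝ} (hH : 1 < H) (A : ℝ) :
    ∃ δ : ℝ, 0 < δ ∧ ∀ τ : ℝ, 0 < τ → τ < δ → A ≤ ((win p q (1 / τ) (H / τ)).card : ℝ) := by
  obtain ⟨hlp, hlq⟩ := log_pos' hp hq
  obtain ⟨c, M, hc, h⟩ := growth hlp hlq hirr (Real.log_pos hH)
  set B : ℝ := max 0 ((A + M) / c) with hB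
  refine ⟨Real.exp (-B), Real.exp_pos _, fun τ hτ hτ2 => ?_⟩
  have hH0 : 0 < H := by linarith
  have h1 : Real.log (H / τ) - Real.log (1 / τ) = Real.log H := by
    rw [Real.log_div hH0.ne' hτ.ne', Real.log_div one_ne_zero hτ.ne', Real.log_one]; ring
  have h2 : Real.log (1 / τ) = -Real.log τ := by rw [one_div, Real.log_inv]
  have h3 : Real.log τ < -B := (Real.log_lt_iff_lt_exp hτ).2 hτ2
  rw [card_win hp hq hirr (by positivity) (by positivity), h1, h2]
  have hB0 : 0 ≤ B := le_max_left _ _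
  have h4 := h (-Real.log τ) (by linarith)
  have h5 : (A + M) / c ≤ -Real.log τ := (le_max_right _ _).trans (by linarith)
  rw [div_le_iff₀ hc] at h5
  linarith

/-- A thin slab contains few elements compared with the window. -/
lemma thin (hirr : Irrational (Real.log p / Real.log q)) {H : ℝ} (hH : 1 < H) {J : ℕ} (hJ : 1 ≤ J)
    (R : ℝ) : ∃ M : ℕ, ∀ τ : ℝ, 0 < τ → ∀ x : ℝ, |-Real.log τ - x| ≤ R →
      J * cnt (Real.log p) (Real.log q) x (Real.log H / (2 * J)) ≤
        (win p q (1 / τ) (H / τ)).card + M := by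
  obtain ⟨hlp, hlq⟩ := log_pos' hp hq
  obtain ⟨M, hM⟩ := compare hlp hlq hirr (L := Real.log H) (R := R) (Real.log_pos hH) hJ
  refine ⟨M, fun τ hτ x hx => ?_⟩
  have hH0 : 0 < H := by linarith
  have h1 : Real.log (H / τ) - Real.log (1 / τ) = Real.log H := by
    rw [Real.log_div hH0.ne' hτ.ne', Real.log_div one_ne_zero hτ.ne', Real.log_one]; ring
  have h2 : Real.log (1 / τ) = -Real.log τ := by rw [one_div, Real.log_inv]
  rw [card_win hp hq hirr (by positivity) (by positivity), h1, h2]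
  exact hM x _ hx

/-- The windows are nearly invariant under multiplication by `s`. -/
lemma near_inv (hirr : Irrational (Real.log p / Real.log q)) {s : ℕ} (hs : 2 ≤ s) {η : ℝ}
    (hη : 0 < η) : ∃ H0 : ℝ, 1 < H0 ∧ ∀ H : ℝ, H0 ≤ H → ∃ δ : ℝ, 0 < δ ∧ ∀ τ : ℝ, 0 < τ → τ < δ →
      (((win p q (1 / τ) (H / τ)).filter fun n => H / τ ≤ ((s * n : ℕ) : ℝ)).card : ℝ) ≤
        η * (win p q (1 / τ) (H / τ)).card := by
  obtain ⟨hlp, hlq⟩ := log_pos' hp hq
  have hsR : (2 : ℝ) ≤ s := by exact_mod_cast hs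
  have hls : 0 < Real.log s := Real.log_pos (by linarith)
  obtain ⟨J, hJ⟩ := exists_nat_ge (2 / η)
  have hJ0 : 0 < J := by
    have : (0 : ℝ) < J := lt_of_lt_of_le (by positivity) hJ
    exact_mod_cast this
  have hJR : (0 : ℝ) < J := by exact_mod_cast hJ0
  refine ⟨Real.exp (2 * J * Real.log s), Real.one_lt_exp_iff.2 (by positivity), fun H hH => ?_⟩
  have hH0 : 0 < H := (Real.exp_pos _).trans_le hH
  have hH1 : 1 < H := (Real.one_lt_exp_iff.2 (by positivity)).trans_le hH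
  have hlH : 2 * J * Real.log s ≤ Real.log H := (Real.le_log_iff_exp_le hH0).2 hH
  obtain ⟨M, hM⟩ := thin hp hq hirr hH1 hJ0 (Real.log H + Real.log s)
  obtain ⟨δ, hδ, hδ2⟩ := card_large hp hq hirr hH1 M
  refine ⟨δ, hδ, fun τ hτ hτδ => ?_⟩
  set W := win p q (1 / τ) (H / τ) with hW
  have h1 : (M : ℝ) ≤ W.card := hδ2 τ hτ hτδ
  have h2 := hM τ hτ (Real.log H - Real.log τ - Real.log s) (by
    have e : -Real.log τ - (Real.log H - Real.log τ - Real.log s) = Real.log s - Real.log H := by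
      ring
    rw [e, abs_le]
    have := Real.log_nonneg hH1.le
    constructor <;> linarith)
  have h3 : (W.filter fun n => H / τ ≤ ((s * n : ℕ) : ℝ)).card ≤
      cnt (Real.log p) (Real.log q) (Real.log H - Real.log τ - Real.log s)
        (Real.log H / (2 * J)) := by
    rw [← Set.ncard_coe_finset]
    refine (Set.ncard_le_ncard (t := (fun u : ℕ × ℕ => p ^ u.1 * q ^ u.2) ''
      slab (Real.log p) (Real.log q) (Real.log H - Real.log τ - Real.log s)
        (Real.log H / (2 * J))) ?_ ((slab_finite hlp hlq _ _).image _)).trans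
      (Set.ncard_image_le (slab_finite hlp hlq _ _))
    intro n hn
    rw [Finset.mem_coe, Finset.mem_filter, hW, mem_win] at hn
    obtain ⟨⟨⟨a, b, rfl⟩, h4, h5⟩, h6⟩ := hn
    refine ⟨(a, b), ⟨?_, ?_⟩, rfl⟩
    · show Real.log H - Real.log τ - Real.log s ≤ a * Real.log p + b * Real.log q
      rw [← log_pow_mul hp hq]
      have hn0 : (0 : ℝ) < ((p ^ a * q ^ b : ℕ) : ℝ) := lt_of_lt_of_le (by positivity) h4
      have h7 := Real.log_le_log (by positivity) h6
      rw [Real.log_div hH0.ne' hτ.ne', Nat.cast_mul,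
        Real.log_mul (by positivity) hn0.ne'] at h7
      linarith
    · show a * Real.log p + b * Real.log q < Real.log H - Real.log τ - Real.log s + _
      rw [← log_pow_mul hp hq]
      have hn0 : (0 : ℝ) < ((p ^ a * q ^ b : ℕ) : ℝ) := lt_of_lt_of_le (by positivity) h4
      have h7 := Real.log_lt_log hn0 h5
      rw [Real.log_div hH0.ne' hτ.ne'] at h7
      have h8 : Real.log s ≤ Real.log H / (2 * J) := by
        rw [le_div_iff₀ (by positivity)]; linarith
      linarith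
  have h4 : (J : ℝ) * (W.filter fun n => H / τ ≤ ((s * n : ℕ) : ℝ)).card ≤ W.card + M := by
    have : J * (W.filter fun n => H / τ ≤ ((s * n : ℕ) : ℝ)).card ≤ W.card + M :=
      (Nat.mul_le_mul_left _ h3).trans h2
    exact_mod_cast this
  have h5 : (J : ℝ) * (W.filter fun n => H / τ ≤ ((s * n : ℕ) : ℝ)).card ≤ 2 * W.card := by
    linarith
  have h6 : 2 ≤ η * J := by
    rw [div_le_iff₀ hη] at hJ; linarith
  have h7 : (J : ℝ) * (W.filter fun n => H / τ ≤ ((s * n : ℕ) : ℝ)).card ≤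
      J * (η * W.card) := by
    calc (J : ℝ) * (W.filter fun n => H / τ ≤ ((s * n : ℕ) : ℝ)).card ≤ 2 * W.card := h5
      _ ≤ (η * J) * W.card := by gcongr
      _ = J * (η * W.card) := by ring
  exact le_of_mul_le_mul_left h7 hJR

omit hp hq in
/-- sums over a window and over its dilate -/
lemma sum_dilate {s : ℕ} (hs : 1 ≤ s) (W : Finset ℕ) (F : ℕ → ℝ) (hF : ∀ n, |F n| ≤ 1) :
    |∑ n ∈ W, F (s * n) - ∑ n ∈ W, F n| ≤ 2 * ((W.filter fun n => s * n ∉ W).card : ℝ) := by
  classical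
  set W' : Finset ℕ := W.image fun n => s * n with hW'
  have hinj : Set.InjOn (fun n => s * n) (W : Set ℕ) := by
    intro a _ b _ hab
    exact Nat.eq_of_mul_eq_mul_left (by omega) hab
  have h1 : ∑ n ∈ W, F (s * n) = ∑ n ∈ W', F n := by
    rw [hW', Finset.sum_image hinj]
  have hcard : W'.card = W.card := Finset.card_image_of_injOn hinj
  rw [h1, ← Finset.sum_sdiff_sub_sum_sdiff]
  have h2 : ∀ U : Finset ℕ, |∑ n ∈ U, F n| ≤ U.card := by
    intro U
    refine (Finset.abs_sum_le_sum_abs _ _).trans ?_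
    refine (Finset.sum_le_card_nsmul _ _ 1 fun n _ => hF n).trans ?_
    simp
  have h3 : (W' \ W).card = (W.filter fun n => s * n ∉ W).card := by
    have : W' \ W = (W.filter fun n => s * n ∉ W).image fun n => s * n := by
      ext n
      simp only [hW', Finset.mem_sdiff, Finset.mem_image, Finset.mem_filter]
      constructor
      · rintro ⟨⟨m, hm, rfl⟩, h⟩
        exact ⟨m, ⟨hm, h⟩, rfl⟩
      · rintro ⟨m, ⟨hm, h⟩, rfl⟩
        exact ⟨⟨m, hm, rfl⟩, h⟩
    rw [this]
    refine Finset.card_image_of_injOn fun a _ b _ hab => ?_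
    exact Nat.eq_of_mul_eq_mul_left (by omega) hab
  have h4 : (W \ W').card = (W' \ W).card := Finset.card_sdiff_comm hcard.symm
  calc |∑ n ∈ W' \ W, F n - ∑ n ∈ W \ W', F n|
      ≤ |∑ n ∈ W' \ W, F n| + |∑ n ∈ W \ W', F n| := abs_sub _ _
    _ ≤ (W' \ W).card + (W \ W').card := add_le_add (h2 _) (h2 _)
    _ = _ := by rw [h4, h3]; ring

end

end Pool.Agent.W764.HL
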